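import Pool.Agent.H97.PK.Targets
import Pool.Agent.H67.HS.B4
import Pool.Agent.H17.HS.B3
import Pool.Agent.H4.HS.B2
import Pool.Agent.H67.HS.B1

open MeasureTheory Set Metric Real
open scoped ENNReal NNReal RealInnerProductSpace

namespace Pool.Agent.H97.PK

/-- Brunn-Minkowski, multiplicative form, open sets. -/
theorem bm : Pool.Agent.H80.HS.T_B4 :=
  Pool.Agent.H67.HS.B4.b4 (Pool.Agent.H17.HS.b3 (Pool.Agent.H4.HS.B2.b2 Pool.Agent.H67.HS.B1.b1))

lemma isOpen_cell {d : ℕ} {ι : Type} [Fintype ι] (p : ι → E d) (b : ι → ℝ) (i : ι) :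
    IsOpen (cell p b i) := by
  have : cell p b i = ⋂ j, ⋂ (_ : j ≠ i), {y | ‖y - p i‖ ^ 2 - b i < ‖y - p j‖ ^ 2 - b j} := by
    ext y; simp [cell]
  rw [this]
  refine isOpen_iInter_of_finite fun j => isOpen_iInter_of_finite fun _ => ?_
  exact isOpen_lt (by fun_prop) (by fun_prop)

lemma sq_comb {d : ℕ} (a b c : E d) (θ : ℝ) :
    ‖(1 - θ) • a + θ • b - c‖ ^ 2 = (1 - θ) * ‖a - c‖ ^ 2 + θ * ‖b - c‖ ^ 2 -
      θ * (1 - θ) * ‖a - b‖ ^ 2 := by
  have e1 : (1 - θ) • a + θ • b - c = (1 - θ) • (a - c) + θ • (b - c) := by module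
  have e2 : a - b = (a - c) - (b - c) := by abel
  rw [e1, e2]
  generalize a - c = x
  generalize b - c = y
  rw [@norm_add_sq_real, @norm_sub_sq_real, norm_smul, norm_smul, mul_pow, mul_pow, inner_smul_left,
    inner_smul_right]
  simp only [Real.norm_eq_abs, sq_abs, conj_trivial]
  ring

theorem pf_itp : T_ITP := by
  intro d ι _ p b b' i ρ θ x y hρ h0 h1 hx0 hx1 hy hxy
  refine bm d θ h0 h1 _ _ _ ((isOpen_cell p b' i).inter isOpen_ball)
    ((isOpen_cell p b i).inter isOpen_ball) ((isOpen_cell p _ i).inter isOpen_ball) ?_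
  rintro u ⟨hu1, hu2⟩ v ⟨hv1, hv2⟩
  have ht : 0 < 1 - θ := by linarith
  refine ⟨?_, ?_⟩
  · intro j hj
    have h3 := hu1 j hj
    have h4 := hv1 j hj
    rw [sq_comb, sq_comb]
    nlinarith [mul_lt_mul_of_pos_left h3 ht, mul_lt_mul_of_pos_left h4 h0]
  · rw [mem_ball, dist_eq_norm] at hu2 hv2 ⊢
    have hx : 0 < 1 - x := by
      by_contra hc
      rw [Real.sqrt_eq_zero_of_nonpos (not_lt.1 hc), zero_mul] at hu2
      exact absurd hu2 (not_lt.2 (norm_nonneg _))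
    have h5 : ‖u - p i‖ ^ 2 < (1 - x) * ρ ^ 2 := by
      have := pow_lt_pow_left₀ hu2 (norm_nonneg _) two_ne_zero
      rwa [mul_pow, Real.sq_sqrt hx.le] at this
    have h6 : ‖v - p i‖ ^ 2 < (1 + y) * ρ ^ 2 := by
      have := pow_lt_pow_left₀ hv2 (norm_nonneg _) two_ne_zero
      rwa [mul_pow, Real.sq_sqrt (by linarith)] at this
    have h7 : ‖(1 - θ) • u + θ • v - p i‖ ^ 2 < ρ ^ 2 := by
      rw [sq_comb]
      have h8 : 0 ≤ θ * (1 - θ) * ‖u - v‖ ^ 2 := by positivity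
      have h9 := mul_lt_mul_of_pos_left h5 ht
      have h10 := mul_lt_mul_of_pos_left h6 h0
      have h11 : ((1 - θ) * (1 - x) + θ * (1 + y)) * ρ ^ 2 ≤ 1 * ρ ^ 2 :=
        mul_le_mul_of_nonneg_right hxy (by positivity)
      nlinarith
    exact lt_of_pow_lt_pow_left₀ 2 hρ.le h7

end Pool.Agent.H97.PK
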