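import Pool.Agent.H97.PK.Targets

/-!
Kneser-Poulsen with explicit small constants, equal radii: targets (part 2).
-/

open MeasureTheory Set Metric Real
open scoped ENNReal

namespace Pool.Agent.H97.PK

/-- `∑_{k<m} vol {x | multiplicity > k}`, equal radii `r`. -/
noncomputable def SM {d n : ℕ} (m : ℕ) (p : Fin n → E d) (r : ℝ) : ℝ :=
  ∑ k ∈ Finset.range m, (volume {x : E d | k + 1 ≤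
    (Finset.univ.filter (fun i => dist x (p i) ≤ r)).card}).toReal

/-- Kneser's weighted functional, equal radii `r`. -/
noncomputable def WW {d n : ℕ} (τ : Fin n → ℝ) (p : Fin n → E d) (r : ℝ) : ℝ :=
  ∑ k : Fin n, τ k * (volume {x : E d | k.val + 1 ≤
    (Finset.univ.filter (fun i => dist x (p i) ≤ r)).card}).toReal

/-- `∫_{|z|^2 ≤ x} φ (x - |z|^2) dz` over `R^m`. -/
noncomputable def hh (m : ℕ) (φ : ℝ → ℝ) (x : ℝ) : ℝ :=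
  ∫ z in closedBall (0 : E m) (√x), φ (x - ‖z‖ ^ 2)

/-- KNS: `S_m` is a concave function of `r^d` (Kneser). -/
def T_KNS : Prop := ∀ (d : ℕ), 1 ≤ d → ∀ (n m : ℕ) (p : Fin n → E d) (r₀ r₁ r₂ : ℝ),
  0 ≤ r₀ → r₀ ≤ r₁ → r₁ ≤ r₂ →
  (SM m p r₂ - SM m p r₁) * (r₁ ^ d - r₀ ^ d) ≤ (SM m p r₁ - SM m p r₀) * (r₂ ^ d - r₁ ^ d)

/-- POL: star-shaped sets. -/
def T_POL : Prop := ∀ (d : ℕ), 1 ≤ d → ∀ (C : Set (E d)) (c : E d), MeasurableSet C →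
  (∀ y ∈ C, ∀ t : ℝ, 0 < t → t ≤ 1 → c + t • (y - c) ∈ C) → ∀ r₀ r₁ r₂ : ℝ,
  0 ≤ r₀ → r₀ ≤ r₁ → r₁ ≤ r₂ →
  ((volume (C ∩ closedBall c r₂)).toReal - (volume (C ∩ closedBall c r₁)).toReal) *
      (r₁ ^ d - r₀ ^ d) ≤
    ((volume (C ∩ closedBall c r₁)).toReal - (volume (C ∩ closedBall c r₀)).toReal) *
      (r₂ ^ d - r₁ ^ d)

/-- ORD: order-`m` Voronoi cells (ties broken by the index) count `min (N, m)`. -/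
def T_ORD : Prop := ∀ (n m : ℕ) (f : Fin n → ℝ) (r : ℝ),
  min (Finset.univ.filter (fun i => f i ≤ r)).card m =
    (Finset.univ.filter (fun i => f i ≤ r ∧
      (Finset.univ.filter (fun j => f j < f i ∨ (f j = f i ∧ j < i))).card < m)).card

/-- WKC: the weighted functional vanishes at `0`, is monotone and concave in `r^d`. -/
def T_WKC : Prop := ∀ (d : ℕ), 1 ≤ d → ∀ (n : ℕ) (τ : Fin n → ℝ) (p : Fin n → E d), Antitone τ →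
  (∀ k, 0 ≤ τ k) → WW τ p 0 = 0 ∧ (∀ r s : ℝ, 0 ≤ r → r ≤ s → WW τ p r ≤ WW τ p s) ∧
  (∀ r₀ r₁ r₂ : ℝ, 0 ≤ r₀ → r₀ ≤ r₁ → r₁ ≤ r₂ →
    (WW τ p r₂ - WW τ p r₁) * (r₁ ^ d - r₀ ^ d) ≤ (WW τ p r₁ - WW τ p r₀) * (r₂ ^ d - r₁ ^ d))

/-- TNG: consequences of concavity in `r^d`. -/
def T_TNG : Prop := ∀ (d : ℕ), 1 ≤ d → ∀ F : ℝ → ℝ, F 0 = 0 →
  (∀ r s : ℝ, 0 ≤ r → r ≤ s → F r ≤ F s) →
  (∀ r₀ r₁ r₂ : ℝ, 0 ≤ r₀ → r₀ ≤ r₁ → r₁ ≤ r₂ →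
    (F r₂ - F r₁) * (r₁ ^ d - r₀ ^ d) ≤ (F r₁ - F r₀) * (r₂ ^ d - r₁ ^ d)) →
  ∀ r : ℝ, 0 < r → (∀ s : ℝ, 0 ≤ s → F r * min 1 ((s / r) ^ d) ≤ F s) ∧
    ∃ γ : ℝ, 0 ≤ γ ∧ γ ≤ 1 ∧ ∀ s : ℝ, 0 ≤ s → F s ≤ F r * (1 - γ + γ * (s / r) ^ d)

/-- SLW: slices of the weighted functional. -/
def T_SLW : Prop := ∀ (d m n : ℕ) (τ : Fin n → ℝ) (p : Fin n → E d) (R : ℝ), 1 ≤ d → 0 ≤ R →
  IntegrableOn (fun z : E m => WW τ p (√(R ^ 2 - ‖z‖ ^ 2))) (closedBall (0 : E m) R) ∧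
  WW τ (fun i => emb m (p i)) R = ∫ z in closedBall (0 : E m) R, WW τ p (√(R ^ 2 - ‖z‖ ^ 2))

/-- RD1: radial integrals. -/
def T_RD1 : Prop := ∀ m : ℕ, 1 ≤ m → ∀ φ : ℝ → ℝ, Continuous φ → ∀ x : ℝ, 0 < x →
  hh m φ x = (m : ℝ) / 2 * (volume (ball (0 : E m) 1)).toReal *
    ∫ s in Ioc (0 : ℝ) x, φ s * (x - s) ^ ((m : ℝ) / 2 - 1)

/-- AXM: the comparison with explicit constant `C`. -/
def T_AXM : Prop := ∀ (d : ℕ), 3 ≤ d → ∀ (x C : ℝ), 1 < x → 0 ≤ C →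
  hh (d - 2) (fun _ => 1) x ≤ C * hh (d - 2) (fun s => min 1 (s ^ ((d : ℝ) / 2))) x →
  hh (d - 2) (fun s => s ^ ((d : ℝ) / 2)) x ≤
    C * hh (d - 2) (fun s => min 1 (s ^ ((d : ℝ) / 2))) x →
  ∀ (n : ℕ) (p q : Fin n → E d) (r : ℝ), Contr p q → 0 < r → ∀ τ : Fin n → ℝ, Antitone τ →
    (∀ k, 0 ≤ τ k) → WW τ q r ≤ C * WW τ p r

/-- NM3: numerics for `d = 3`. -/
def T_NM3 : Prop :=
  (∫ s in Ioc (0 : ℝ) (1423 / 1000), (1 : ℝ) * (1423 / 1000 - s) ^ (((1 : ℕ) : ℝ) / 2 - 1)) ≤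
    4 / 3 * ∫ s in Ioc (0 : ℝ) (1423 / 1000), min 1 (s ^ (((3 : ℕ) : ℝ) / 2)) *
      (1423 / 1000 - s) ^ (((1 : ℕ) : ℝ) / 2 - 1) ∧
  (∫ s in Ioc (0 : ℝ) (1423 / 1000), s ^ (((3 : ℕ) : ℝ) / 2) *
      (1423 / 1000 - s) ^ (((1 : ℕ) : ℝ) / 2 - 1)) ≤
    4 / 3 * ∫ s in Ioc (0 : ℝ) (1423 / 1000), min 1 (s ^ (((3 : ℕ) : ℝ) / 2)) *
      (1423 / 1000 - s) ^ (((1 : ℕ) : ℝ) / 2 - 1)

/-- NM4: numerics for `d = 4`. -/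
def T_NM4 : Prop :=
  (∫ s in Ioc (0 : ℝ) (√3), (1 : ℝ) * (√3 - s) ^ (((2 : ℕ) : ℝ) / 2 - 1)) ≤
    (27 + 6 * √3) / 23 * ∫ s in Ioc (0 : ℝ) (√3), min 1 (s ^ (((4 : ℕ) : ℝ) / 2)) *
      (√3 - s) ^ (((2 : ℕ) : ℝ) / 2 - 1) ∧
  (∫ s in Ioc (0 : ℝ) (√3), s ^ (((4 : ℕ) : ℝ) / 2) *
      (√3 - s) ^ (((2 : ℕ) : ℝ) / 2 - 1)) ≤
    (27 + 6 * √3) / 23 * ∫ s in Ioc (0 : ℝ) (√3), min 1 (s ^ (((4 : ℕ) : ℝ) / 2)) *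
      (√3 - s) ^ (((2 : ℕ) : ℝ) / 2 - 1)

/-- NMG: the bounds for `x = 4`. -/
def T_NMG : Prop := ∀ d m : ℕ, 3 ≤ d → m + 2 = d →
  (∫ s in Ioc (0 : ℝ) 4, (1 : ℝ) * (4 - s) ^ ((m : ℝ) / 2 - 1)) ≤
    √(2 * π * (d + 1)) * √(4 / 3) ^ m *
      ∫ s in Ioc (0 : ℝ) 4, min 1 (s ^ ((d : ℝ) / 2)) * (4 - s) ^ ((m : ℝ) / 2 - 1) ∧
  (∫ s in Ioc (0 : ℝ) 4, s ^ ((d : ℝ) / 2) * (4 - s) ^ ((m : ℝ) / 2 - 1)) ≤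
    √(2 * π * (d + 1)) * √(4 / 3) ^ m *
      ∫ s in Ioc (0 : ℝ) 4, min 1 (s ^ ((d : ℝ) / 2)) * (4 - s) ^ ((m : ℝ) / 2 - 1)

end Pool.Agent.H97.PK
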