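import Pool.Agent.H97.PK.Targets2
import Pool.Agent.H65k.Final

open MeasureTheory Set Metric Real
open scoped ENNReal NNReal

namespace Pool.Agent.H97.PK

lemma hh_scale (m : ℕ) (φ : ℝ → ℝ) (x r : ℝ) (hr : 0 < r) :
    ∫ z in closedBall (0 : E m) (√x * r), φ (x - ‖r⁻¹ • z‖ ^ 2) = r ^ m * hh m φ x := by
  unfold hh
  rw [← integral_indicator isClosed_closedBall.measurableSet,
    ← integral_indicator isClosed_closedBall.measurableSet]
  have e : (closedBall (0 : E m) (√x * r)).indicator (fun z => φ (x - ‖r⁻¹ • z‖ ^ 2)) =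
      fun z => (closedBall (0 : E m) (√x)).indicator (fun w => φ (x - ‖w‖ ^ 2)) (r⁻¹ • z) := by
    funext z
    have hiff : z ∈ closedBall (0 : E m) (√x * r) ↔ r⁻¹ • z ∈ closedBall (0 : E m) (√x) := by
      simp only [mem_closedBall, dist_zero_right, norm_smul, Real.norm_eq_abs]
      rw [abs_of_pos (inv_pos.2 hr), inv_mul_le_iff₀ hr, mul_comm]
    by_cases hz : z ∈ closedBall (0 : E m) (√x * r)
    · rw [indicator_of_mem hz, indicator_of_mem (hiff.1 hz)]
    · rw [indicator_of_notMem hz, indicator_of_notMem (fun h => hz (hiff.2 h))]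
  rw [e, MeasureTheory.Measure.integral_comp_smul, finrank_euclideanSpace_fin, smul_eq_mul]
  congr 1
  rw [inv_pow, inv_inv, abs_of_pos (pow_pos hr m)]

lemma ratio_pow (d : ℕ) (x r : ℝ) (hr : 0 < r) {m : ℕ} (z : E m) (hx : 0 ≤ x)
    (hz : z ∈ closedBall (0 : E m) (√x * r)) :
    (√((√x * r) ^ 2 - ‖z‖ ^ 2) / r) ^ d = (x - ‖r⁻¹ • z‖ ^ 2) ^ ((d : ℝ) / 2) := by
  have h1 : ‖z‖ ≤ √x * r := by simpa using hz
  have h2 : ‖z‖ ^ 2 ≤ (√x * r) ^ 2 := pow_le_pow_left₀ (norm_nonneg _) h1 2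
  have h3 : x - ‖r⁻¹ • z‖ ^ 2 = ((√x * r) ^ 2 - ‖z‖ ^ 2) / r ^ 2 := by
    rw [norm_smul, Real.norm_eq_abs, abs_of_pos (inv_pos.2 hr), mul_pow, mul_pow, Real.sq_sqrt hx]
    field_simp
  have h4 : √((√x * r) ^ 2 - ‖z‖ ^ 2) / r = √(x - ‖r⁻¹ • z‖ ^ 2) := by
    rw [h3, Real.sqrt_div (by linarith), Real.sqrt_sq hr.le]
  have h5 : 0 ≤ x - ‖r⁻¹ • z‖ ^ 2 := by rw [h3]; exact div_nonneg (by linarith) (by positivity)
  rw [h4, Real.sqrt_eq_rpow, ← Real.rpow_natCast, ← Real.rpow_mul h5]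
  congr 1
  ring

theorem pf_axm (hWKC : T_WKC) (hTNG : T_TNG) (hSLW : T_SLW) (hRNK : T_RNK) : T_AXM := by
  intro d hd x C hx hC h0 h1 n p q r hpq hr τ hτ hτ0
  obtain ⟨m, hdm⟩ : ∃ m, d = m + 2 := ⟨d - 2, by omega⟩
  have hm : 1 ≤ m := by omega
  have em : d - 2 = m := by omega
  rw [em] at h0 h1
  have hd1 : 1 ≤ d := by omega
  have hx0 : 0 < x := by linarith
  set R : ℝ := √x * r with hR
  have hRpos : 0 < R := mul_pos (Real.sqrt_pos.2 hx0) hr
  -- comparison in R^(2d-2)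
  have hA : WW τ (fun i => emb m (q i)) R ≤ WW τ (fun i => emb m (p i)) R := by
    have hr' := hRNK d m (Fin n) p q
    have := Pool.Agent.H65k.kneser_main (d + m) n (fun i => emb m (p i)) (fun i => emb m (q i))
      (fun _ => R) (fun _ => hRpos) (hr'.2 hpq)
      (Or.inr (Or.inr (Or.inl (hr'.1.trans (by omega))))) τ hτ
    exact this
  obtain ⟨iq, eq1⟩ := hSLW d m n τ q R hd1 hRpos.le
  obtain ⟨ip, ep1⟩ := hSLW d m n τ p R hd1 hRpos.le
  rw [eq1, ep1] at hA
  obtain ⟨q0, qm, qc⟩ := hWKC d hd1 n τ q hτ hτ0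
  obtain ⟨p0, pm, pc⟩ := hWKC d hd1 n τ p hτ hτ0
  obtain ⟨ql, -⟩ := hTNG d hd1 (WW τ q) q0 qm qc r hr
  obtain ⟨-, γ, hγ0, hγ1, pu⟩ := hTNG d hd1 (WW τ p) p0 pm pc r hr
  have hdpos : (0 : ℝ) < (d : ℝ) / 2 := by
    have : (1 : ℝ) ≤ d := by exact_mod_cast hd1
    linarith
  have hcr : Continuous fun s : ℝ => s ^ ((d : ℝ) / 2) := Real.continuous_rpow_const hdpos.le
  have hcont : ∀ φ : ℝ → ℝ, Continuous φ →
      IntegrableOn (fun z : E m => φ (x - ‖r⁻¹ • z‖ ^ 2)) (closedBall 0 R) := by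
    intro φ hφ
    refine ContinuousOn.integrableOn_compact (isCompact_closedBall _ _) ?_
    refine Continuous.continuousOn ?_
    fun_prop
  have hWq : 0 ≤ WW τ q r := by rw [← q0]; exact qm 0 r le_rfl hr.le
  have hWp : 0 ≤ WW τ p r := by rw [← p0]; exact pm 0 r le_rfl hr.le
  -- lower bound for q
  have hlow : WW τ q r * (r ^ m * hh m (fun s => min 1 (s ^ ((d : ℝ) / 2))) x) ≤
      ∫ z in closedBall (0 : E m) R, WW τ q (√(R ^ 2 - ‖z‖ ^ 2)) := by
    rw [← hh_scale m _ x r hr, ← integral_const_mul]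
    refine setIntegral_mono_on ?_ iq isClosed_closedBall.measurableSet ?_
    · exact (hcont (fun s => min 1 (s ^ ((d : ℝ) / 2))) (continuous_const.min hcr)).const_mul _
    · intro z hz
      have h2 := ql (√(R ^ 2 - ‖z‖ ^ 2)) (Real.sqrt_nonneg _)
      rw [hR, ratio_pow d x r hr z hx0.le hz] at h2
      exact h2
  have hupp : ∫ z in closedBall (0 : E m) R, WW τ p (√(R ^ 2 - ‖z‖ ^ 2)) ≤
      WW τ p r * ((1 - γ) * (r ^ m * hh m (fun _ => 1) x) +
        γ * (r ^ m * hh m (fun s => s ^ ((d : ℝ) / 2)) x)) := by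
    rw [← hh_scale m _ x r hr, ← hh_scale m _ x r hr, ← integral_const_mul, ← integral_const_mul,
      ← integral_add ((hcont (fun _ => 1) continuous_const).const_mul _)
        ((hcont _ hcr).const_mul _), ← integral_const_mul]
    refine setIntegral_mono_on ip ?_ isClosed_closedBall.measurableSet ?_
    · exact (((hcont (fun _ => 1) continuous_const).const_mul _).add
        ((hcont _ hcr).const_mul _)).const_mul _
    · intro z hz
      have h2 := pu (√(R ^ 2 - ‖z‖ ^ 2)) (Real.sqrt_nonneg _)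
      rw [hR, ratio_pow d x r hr z hx0.le hz] at h2
      simpa using h2
  set H1 := hh m (fun s => min 1 (s ^ ((d : ℝ) / 2))) x with hH1
  set H0 := hh m (fun _ => 1) x with hH0
  set H2 := hh m (fun s => s ^ ((d : ℝ) / 2)) x with hH2
  have hrm : 0 < r ^ m := pow_pos hr m
  -- positivity of H1
  have hH1pos : 0 < H1 := by
    rw [hH1]
    unfold hh
    rw [setIntegral_pos_iff_support_of_nonneg_ae]
    · have hsub : ball (0 : E m) (√x) ⊆
          Function.support (fun z : E m => min 1 ((x - ‖z‖ ^ 2) ^ ((d : ℝ) / 2))) ∩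
            closedBall 0 (√x) := by
        intro z hz
        refine ⟨?_, ball_subset_closedBall hz⟩
        have h3 : ‖z‖ < √x := by simpa using hz
        have h4 : ‖z‖ ^ 2 < x := by
          have := pow_lt_pow_left₀ h3 (norm_nonneg _) two_ne_zero
          rwa [Real.sq_sqrt hx0.le] at this
        have h5 : 0 < (x - ‖z‖ ^ 2) ^ ((d : ℝ) / 2) := Real.rpow_pos_of_pos (by linarith) _
        exact ne_of_gt (lt_min one_pos h5)
      exact lt_of_lt_of_le (measure_ball_pos _ _ (Real.sqrt_pos.2 hx0)) (measure_mono hsub)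
    · refine (ae_restrict_iff' isClosed_closedBall.measurableSet).2 (Filter.Eventually.of_forall ?_)
      intro z hz
      have h3 : ‖z‖ ≤ √x := by simpa using hz
      have h4 : ‖z‖ ^ 2 ≤ x := by
        have := pow_le_pow_left₀ (norm_nonneg _) h3 2
        rwa [Real.sq_sqrt hx0.le] at this
      exact le_min zero_le_one (Real.rpow_nonneg (by linarith) _)
    · refine ContinuousOn.integrableOn_compact (isCompact_closedBall _ _) ?_
      refine Continuous.continuousOn ?_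
      exact continuous_const.min (hcr.comp (by fun_prop))
  have hfin : WW τ q r * (r ^ m * H1) ≤ (C * WW τ p r) * (r ^ m * H1) := by
    calc WW τ q r * (r ^ m * H1) ≤ _ := hlow
      _ ≤ _ := hA
      _ ≤ _ := hupp
      _ ≤ WW τ p r * ((1 - γ) * (r ^ m * (C * H1)) + γ * (r ^ m * (C * H1))) := by
        have := sub_nonneg.2 hγ1
        gcongr
      _ = _ := by ring
  exact le_of_mul_le_mul_right hfin (mul_pos hrm hH1pos)

end Pool.Agent.H97.PK
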