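import Pool.Agent.H97.PK.Targets

open MeasureTheory Set Metric Real
open scoped ENNReal NNReal

namespace Pool.Agent.H97.PK

lemma gau_lt_iff {l u v A B r r' : ℝ} (hl : 0 < l) (hu : 0 < u) (hv : 0 < v) :
    v * exp (l * (r' ^ 2 - B)) < u * exp (l * (r ^ 2 - A)) ↔
      A - (r ^ 2 + log u / l) < B - (r' ^ 2 + log v / l) := by
  rw [← exp_log hu, ← exp_log hv, ← exp_add, ← exp_add, exp_lt_exp, log_exp, log_exp]
  have h1 : A - (r ^ 2 + log u / l) < B - (r' ^ 2 + log v / l) ↔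
      l * (A - (r ^ 2 + log u / l)) < l * (B - (r' ^ 2 + log v / l)) :=
    (mul_lt_mul_iff_right₀ hl).symm
  rw [h1]
  have e1 : l * (A - (r ^ 2 + log u / l)) = l * A - l * r ^ 2 - log u := by
    field_simp
    ring
  have e2 : l * (B - (r' ^ 2 + log v / l)) = l * B - l * r' ^ 2 - log v := by
    field_simp
    ring
  rw [e1, e2]
  constructor <;> intro h <;> nlinarith

lemma u_gau {d : ℕ} {l u r : ℝ} (hu : 0 < u) (c y : E d) :
    u * gau l c r y = exp (log u + l * r ^ 2 - l * ‖y - c‖ ^ 2) := by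
  unfold gau
  nth_rewrite 1 [← exp_log hu]
  rw [← exp_add]
  congr 1
  ring

theorem pf_unb (hEXPU : T_EXPU) (hKKT : T_KKT) (hGTI : T_GTI) (hSUM : T_SUM) : T_UNB := by
  classical
  intro d hd ι _ p q hinj hpq ρ M K J hρ hM hratio hK hJ
  rcases isEmpty_or_nonempty ι with hι | hι
  · simp [vU]
  obtain ⟨i0, hi0⟩ := Finite.exists_max ρ
  set D : ℝ := (d : ℝ) with hDdef
  have hD : 1 ≤ D := by rw [hDdef]; exact_mod_cast hd
  have hR : 0 < ρ i0 := hρ i0
  set a : ℝ := 1 / ρ i0 ^ 2 with ha_def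
  have ha : 0 < a := by positivity
  set l : ℕ → ℝ := fun k => a * (1 + 1 / D) ^ k with hl_def
  have hl : ∀ k, 0 < l k := fun k => by simp only [hl_def]; positivity
  have hg : ∀ i, a * ρ i ^ 2 ≤ 1 := by
    intro i
    rw [ha_def, one_div, inv_mul_le_iff₀ (by positivity), mul_one]
    exact pow_le_pow_left₀ (hρ i).le (hi0 i) 2
  have hgK : ∀ i, D ≤ a * ρ i ^ 2 * (1 + 1 / D) ^ K := by
    intro i
    have h1 : ρ i0 ^ 2 ≤ M ^ 2 * ρ i ^ 2 := by
      rw [← mul_pow]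
      exact pow_le_pow_left₀ hR.le (hratio i0 i) 2
    have h2 : D * ρ i0 ^ 2 ≤ ρ i ^ 2 * (1 + 1 / D) ^ K := by
      have h3 : ρ i ^ 2 * (D * M ^ 2) ≤ ρ i ^ 2 * (1 + 1 / D) ^ K :=
        mul_le_mul_of_nonneg_left hK (by positivity)
      nlinarith [mul_le_mul_of_nonneg_left h1 (by linarith : (0 : ℝ) ≤ D)]
    rw [ha_def, one_div, mul_assoc, ← div_eq_inv_mul, le_div_iff₀ (by positivity)]
    exact h2
  refine ENNReal.le_of_forall_pos_le_add fun ε hε _ => ?_
  obtain ⟨u, G, hu, hsum, hG, hcell, htot⟩ := hKKT (E d) volume ι (Fin (K + 1))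
    (fun k i => gau (l k) (p i) (ρ i)) (fun k i y => exp_pos _)
    (fun k i => ((hGTI d hd (l k) (hl k)).1 (p i) (ρ i)).1)
    (fun k i => ((hGTI d hd (l k) (hl k)).1 (p i) (ρ i)).2)
    (fun k i j hij a' ha' => (hGTI d hd (l k) (hl k)).2 (p i) (p j) (ρ i) (ρ j) a'
      (fun h => hij (hinj h)) ha') ε (by exact_mod_cast hε)
  -- the cells
  set b : ℕ → ι → ℝ := fun k i => if h : k < K + 1 then ρ i ^ 2 + log (u ⟨k, h⟩ i) / l k else 0
    with hb
  have hc : ∀ (k : ℕ) (hk : k < K + 1) (i : ι),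
      {y : E d | ∀ j, j ≠ i → u ⟨k, hk⟩ j * gau (l k) (p j) (ρ j) y <
        u ⟨k, hk⟩ i * gau (l k) (p i) (ρ i) y} = cell p (b k) i := by
    intro k hk i
    ext y
    simp only [cell, mem_setOf_eq, hb, hk, dif_pos, gau]
    refine forall_congr' fun j => forall_congr' fun _ => ?_
    exact gau_lt_iff (hl k) (hu _ _) (hu _ _)
  have hS := hSUM d hd ι p ρ G a K J b hρ ha hg hgK hJ hG (fun k i hk => by
    have h1 := hcell ⟨k, Nat.lt_succ_of_le hk⟩ i
    simp only at h1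
    rw [hc k (Nat.lt_succ_of_le hk) i] at h1
    exact h1)
  -- the q side
  have hq1 : vU q ρ ≤ ∑ k : Fin (K + 1), ∫⁻ y : E d,
      ⨆ i, ENNReal.ofReal (u k i * gau (l k) (q i) (ρ i) y) := by
    have hmeas : ∀ k : Fin (K + 1), Measurable (fun y : E d =>
        ⨆ i, ENNReal.ofReal (u k i * gau (l k) (q i) (ρ i) y)) := by
      intro k
      refine Measurable.iSup fun i => ?_
      exact (((hGTI d hd (l k) (hl k)).1 (q i) (ρ i)).1.const_mul _).ennreal_ofReal
    rw [← lintegral_finsetSum _ (fun k _ => hmeas k)]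
    have hU : MeasurableSet (⋃ i, closedBall (q i) (ρ i)) :=
      MeasurableSet.iUnion fun i => isClosed_closedBall.measurableSet
    calc vU q ρ = ∫⁻ _y in (⋃ i, closedBall (q i) (ρ i)), 1 := (setLIntegral_one _).symm
      _ ≤ ∫⁻ y in (⋃ i, closedBall (q i) (ρ i)), ∑ k : Fin (K + 1),
          ⨆ i, ENNReal.ofReal (u k i * gau (l k) (q i) (ρ i) y) := by
        refine setLIntegral_mono' hU fun y hy => ?_
        obtain ⟨i, hi⟩ := mem_iUnion.1 hy
        have h1 : (1 : ℝ≥0∞) = ∑ k : Fin (K + 1), ENNReal.ofReal (u k i) := by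
          rw [← ENNReal.ofReal_sum_of_nonneg (fun k _ => (hu k i).le), hsum i, ENNReal.ofReal_one]
        rw [h1]
        refine Finset.sum_le_sum fun k _ => ?_
        refine le_trans ?_ (le_iSup _ i)
        refine ENNReal.ofReal_le_ofReal ?_
        have h2 : 1 ≤ gau (l k) (q i) (ρ i) y := by
          unfold gau
          refine one_le_exp ?_
          have h3 : ‖y - q i‖ ≤ ρ i := by rw [← dist_eq_norm]; exact mem_closedBall.1 hi
          have h4 : ‖y - q i‖ ^ 2 ≤ ρ i ^ 2 := pow_le_pow_left₀ (norm_nonneg _) h3 2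
          exact mul_nonneg (hl k).le (by linarith)
        exact le_mul_of_one_le_right (hu k i).le h2
      _ ≤ _ := setLIntegral_le_lintegral _ _
  have hq2 : ∀ k : Fin (K + 1), ∫⁻ y : E d,
      ⨆ i, ENNReal.ofReal (u k i * gau (l k) (q i) (ρ i) y) ≤
      ∫⁻ y : E d, ⨆ i, ENNReal.ofReal (u k i * gau (l k) (p i) (ρ i) y) := by
    intro k
    have := hEXPU d hd ι p q hpq (l k) (hl k) (fun i => log (u k i) + l k * ρ i ^ 2)
    simp only [u_gau (hu _ _)]
    exact this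
  calc vU q ρ ≤ ∑ k : Fin (K + 1), ∫⁻ y : E d,
      ⨆ i, ENNReal.ofReal (u k i * gau (l k) (q i) (ρ i) y) := hq1
    _ ≤ ∑ k : Fin (K + 1), ∫⁻ y : E d,
      ⨆ i, ENNReal.ofReal (u k i * gau (l k) (p i) (ρ i) y) := Finset.sum_le_sum fun k _ => hq2 k
    _ ≤ ENNReal.ofReal (∑ i, G i + ε) := htot
    _ = ENNReal.ofReal (∑ i, G i) + ε := by
      rw [ENNReal.ofReal_add (Finset.sum_nonneg fun i _ => hG i) ε.coe_nonneg,
        ENNReal.ofReal_coe_nnreal]
    _ ≤ _ := by gcongr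

end Pool.Agent.H97.PK
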