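import Pool.Agent.H97.PK.Targets

open MeasureTheory Set Metric Real
open scoped ENNReal NNReal

namespace Pool.Agent.H97.PK

theorem pf_uni (hUNB : T_UNB) (hINJ : T_INJ) (hBLK : T_BLK) (hCON : T_CON) : T_UNI := by
  intro d hd ι _ p q ρ hpq hρ
  obtain ⟨K, J, h1, h2, h3⟩ := hCON d hd
  have h4 : (0 : ℝ) ≤ d := Nat.cast_nonneg d
  have hB := hBLK d hd (ENNReal.ofReal (((K : ℝ) + 1) * ((d : ℝ) + 1) * (17 + 81 * J)))
    (fun ι _ p q ρ hinj hpq hρ hr => hUNB d hd ι p q hinj hpq ρ ((d : ℝ) + 1) K J hρ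
      (by linarith) hr h1 h2)
  have hI := hINJ d _ hB ι p q ρ hpq hρ
  refine hI.trans ?_
  rw [← ENNReal.ofReal_mul (by positivity)]
  gcongr

end Pool.Agent.H97.PK
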