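import Pool.Agent.H97.PK.SUM
import Pool.Agent.H97.PK.UNB
import Pool.Agent.H97.PK.UNI
import Pool.Agent.H97.PK.ITP
import Pool.Agent.H50.PK.KPR
import Pool.Agent.H50.PK.EXPU
import Pool.Agent.H42.PK.RNK
import Pool.Agent.H42.PK.DIS
import Pool.Agent.H67.PK.FUB
import Pool.Agent.H67.PK.BIN
import Pool.Agent.H89.PK.GRO
import Pool.Agent.H80.PK.KKT
import Pool.Agent.H31.PK.GTI
import Pool.Agent.H51.PK.LAY
import Pool.Agent.H22.PK.ONE
import Pool.Agent.H22.PK.BLK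
import Pool.Agent.H19.PK.RSU
import Pool.Agent.H19.PK.TSU
import Pool.Agent.H19.PK.INJ
import Pool.Agent.H48.PK.CNS
import Pool.Agent.H66.PK.WTS

/-!
Kneser-Poulsen up to a polynomial factor: assembly.
-/

open MeasureTheory Set Metric Real
open scoped ENNReal

namespace Pool.Agent.H97.PK.All

open Pool.Agent.H97.PK

theorem aKPR : T_KPR := Pool.Agent.H50.PK.pf_KPR
theorem aRNK : T_RNK := Pool.Agent.H42.PK.pf_rnk
theorem aFUB : T_FUB := Pool.Agent.H67.PK.pf_fub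
theorem aEXPU : T_EXPU := Pool.Agent.H50.PK.pf_EXPU aKPR aRNK aFUB
theorem aGRO : T_GRO := Pool.Agent.H89.PK.pf_gro aKPR
theorem aKKT : T_KKT := Pool.Agent.H80.PK.pf_kkt
theorem aGTI : T_GTI := Pool.Agent.H31.PK.pf_gti
theorem aLAY : T_LAY := Pool.Agent.H51.PK.pf_lay
theorem aDIS : T_DIS := Pool.Agent.H42.PK.pf_dis
theorem aONE : T_ONE := Pool.Agent.H22.PK.ONE.pf_one
theorem aRSU : T_RSU := Pool.Agent.H19.PK.pf_rsu aGRO aDIS
theorem aTSU : T_TSU := Pool.Agent.H19.PK.pf_tsu aGRO aDIS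
theorem aSUM : T_SUM := pf_sum aLAY pf_itp aDIS aONE aRSU aTSU
theorem aUNB : T_UNB := pf_unb aEXPU aKKT aGTI aSUM
theorem aINJ : T_INJ := Pool.Agent.H19.PK.pf_inj
theorem aBLK : T_BLK := Pool.Agent.H22.PK.BLK.pf_blk aGRO
theorem aCON : T_CON := Pool.Agent.H48.PK.pf_cns
theorem aUNI : T_UNI := pf_uni aUNB aINJ aBLK aCON
theorem aBIN : T_BIN := Pool.Agent.H67.PK.pf_bin
theorem aWTS : T_WTS := Pool.Agent.H66.PK.pf_wts aBIN

/-- Kneser's weighted inequality up to a polynomial factor. -/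
theorem main_poly (d n : ℕ) (hd : 1 ≤ d) (p q : Fin n → EuclideanSpace ℝ (Fin d))
    (ρ : Fin n → ℝ) (hρ : ∀ i, 0 < ρ i) (hpq : ∀ i j, dist (q i) (q j) ≤ dist (p i) (p j))
    (τ : Fin n → ℝ) (hτ : Antitone τ) (hτ0 : ∀ k, 0 ≤ τ k) :
    ∑ k : Fin n, τ k *
        (MeasureTheory.volume
          {x : EuclideanSpace ℝ (Fin d) |
            k.val + 1 ≤ (Finset.univ.filter (fun i => dist x (q i) ≤ ρ i)).card}).toReal
      ≤ 40000 * ((d : ℝ) + 1) ^ 3 * Real.log ((d : ℝ) + 1) ^ 2 *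
    ∑ k : Fin n, τ k *
        (MeasureTheory.volume
          {x : EuclideanSpace ℝ (Fin d) |
            k.val + 1 ≤ (Finset.univ.filter (fun i => dist x (p i) ≤ ρ i)).card}).toReal := by
  have h := aWTS d hd (25000 * ((d : ℝ) + 1) ^ 3 * Real.log ((d : ℝ) + 1) ^ 2) (by positivity)
    (aUNI d hd) n p q ρ hpq hρ τ hτ hτ0
  refine h.trans (le_of_eq ?_)
  ring

end Pool.Agent.H97.PK.All
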