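import Pool.Agent.H97.PK.Targets3

open MeasureTheory Set Metric Real
open scoped ENNReal

namespace Pool.Agent.H97.PK.SUN

open Pool.Agent.H97.PK

set_option maxHeartbeats 1000000

theorem sum_lintegral_le' {α ι : Type} [MeasurableSpace α] (μ : Measure α) (s : Finset ι)
    (f : ι → α → ℝ≥0∞) : ∑ i ∈ s, ∫⁻ a, f i a ∂μ ≤ ∫⁻ a, ∑ i ∈ s, f i a ∂μ := by
  classical
  induction s using Finset.induction_on with
  | empty => simp
  | insert i s hi ih =>
    rw [Finset.sum_insert hi]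
    simp only [Finset.sum_insert hi]
    exact (add_le_add le_rfl ih).trans (le_lintegral_add _ _)

section aux

variable {d : ℕ} {ι : Type} [Fintype ι] (p : ι → E d) (ρ : ι → ℝ) (b : ℕ → ι → ℝ)

/-- the volume of the truncated cell -/
noncomputable def vv (i : ι) (k : ℕ) (r : ℝ) : ℝ≥0∞ :=
  volume (cell p (b k) i ∩ ball (p i) (r * ρ i))

/-- the weighted integral of the truncated cell outside the ball -/
noncomputable def RR (Γ : ι → ℕ → ℝ) (i : ι) (k : ℕ) : ℝ≥0∞ :=
  ∫⁻ r in Ioi (1 : ℝ), ENNReal.ofReal (rd (Γ i k) r) * vv p ρ b i k r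

/-- interpolated cells -/
noncomputable def ww (i : ι) (k : ℕ) (t : ℝ) : ℝ≥0∞ :=
  volume (cell p (fun j' => 1 / (1 + t) * b (k + 1) j' + t / (1 + t) * b k j') i ∩
    ball (p i) (ρ i))

/-- integrals of interpolated cells -/
noncomputable def WW' (i : ι) (k : ℕ) : ℝ≥0∞ :=
  ∫⁻ t in Ioi (0 : ℝ), ENNReal.ofReal (mw t) * ww p ρ b i k t

open Classical in
/-- the bound for one index -/
noncomputable def ZZ (D : ℝ) (Γ : ι → ℕ → ℝ) (x : ℕ → ℝ) (K : ℕ) (i : ι) : ℝ≥0∞ :=
  108 * vv p ρ b i 0 1 +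
  ∑ k ∈ Finset.range (K + 1), 2 * (if D ≤ Γ i k ∧ Γ i k ≤ 2 * D then RR p ρ b Γ i k else 0) +
  ∑ k ∈ Finset.range K, ENNReal.ofReal (8 * (x k + 1)) * WW' p ρ b i k

end aux

theorem pf_sun (hLAR : T_LAR) (hITR : T_ITR) (hDIS : T_DIS) (hRSR : T_RSR) (hMUM : T_MUM)
    (hMID : T_MID) (hTRI : T_TRI) : T_SUN := by
  classical
  intro d hd ι _ p ρ G l x K b hρ hl hx h04 h02 hK hstep hG hGi
  set D : ℝ := (d : ℝ) with hDdef
  have hD : 1 ≤ D := by rw [hDdef]; exact_mod_cast hd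
  set Γ : ι → ℕ → ℝ := fun i k => l k * ρ i ^ 2 with hΓ
  have hΓpos : ∀ i k, 0 < Γ i k := fun i k => mul_pos (hl k) (pow_pos (hρ i) 2)
  -- one index
  have key : ∀ i, ENNReal.ofReal (G i) ≤ ZZ p ρ b D Γ x K i := by
    intro i
    rcases (hG i).eq_or_lt with h0 | hGpos
    · rw [← h0]; simp
    have hmono : ∀ k, Monotone (vv p ρ b i k) := by
      intro k s s' hs
      refine measure_mono (inter_subset_inter_right _ (ball_subset_ball ?_))
      exact mul_le_mul_of_nonneg_right hs (hρ i).le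
    have hfin : ∀ k r, vv p ρ b i k r ≠ ⊤ := fun k r =>
      ((measure_mono inter_subset_right).trans_lt measure_ball_lt_top).ne
    have hint : ∀ k, k ≤ K → ENNReal.ofReal (G i) ≤ ∫⁻ r in Ioi (0 : ℝ),
        ENNReal.ofReal (rd (Γ i k) r) * vv p ρ b i k r := by
      intro k hk
      refine (hGi k i hk).trans (le_of_eq ?_)
      rw [hLAR d hd (cell p (b k) i) ((hDIS d ι p (b k)).1 i).measurableSet (p i) (ρ i)
        (l k) (hρ i) (hl k)]
      rfl
    have hst : ∀ k, k < K → Γ i k < D → Γ i k ≤ Γ i (k + 1) ∧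
        Γ i (k + 1) ≤ Γ i k + √(Γ i k) := by
      intro k hk h
      obtain ⟨h1, h2, -⟩ := hstep k i hk h
      exact ⟨mul_le_mul_of_nonneg_right h1 (by positivity), h2⟩
    rcases hTRI D (G i) K (Γ i) (vv p ρ b i) hD hGpos (hΓpos i) (h04 i) (h02 i) (hK i) hst
      hmono hint with h | ⟨k, hk, h1, h2, h⟩ | ⟨k, hk, h1, h2, h3⟩
    · refine h.trans ?_
      unfold ZZ
      rw [add_assoc]
      exact le_self_add
    · refine h.trans ?_
      have h1' : 2 * RR p ρ b Γ i k ≤ ∑ k ∈ Finset.range (K + 1),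
          2 * (if D ≤ Γ i k ∧ Γ i k ≤ 2 * D then RR p ρ b Γ i k else 0) := by
        refine le_trans ?_ (Finset.single_le_sum (f := fun k =>
          2 * (if D ≤ Γ i k ∧ Γ i k ≤ 2 * D then RR p ρ b Γ i k else 0)) (fun _ _ => zero_le)
          (Finset.mem_range.2 (Nat.lt_succ_of_le hk)))
        have hc : D ≤ Γ i k ∧ Γ i k ≤ 2 * D := ⟨h1, h2⟩
        simp only [hc, and_self, if_true]
        exact le_rfl
      refine le_trans (le_of_eq rfl) (h1'.trans ?_)
      unfold ZZ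
      exact le_add_self.trans le_self_add
    · obtain ⟨g1, g2, g3⟩ := hstep k i hk h1
      have hpw : ∀ a b' : ℝ, 0 < a → a < 1 → 0 < b' →
          vv p ρ b i (k + 1) (1 - a) ^ (b' / (a + b')) * vv p ρ b i k (1 + b') ^ (a / (a + b')) ≤
          ww p ρ b i k (a / b') := by
        intro a b' ha ha1 hb'
        have h4 := hITR d ι p (b k) (b (k + 1)) i (ρ i) a b' (hρ i) ha ha1 hb'
        refine h4.trans (le_of_eq ?_)
        unfold ww
        have e1 : 1 / (1 + a / b') = b' / (a + b') := by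
          field_simp
          ring
        have e2 : a / b' / (1 + a / b') = a / (a + b') := by
          field_simp
          ring
        rw [e1, e2]
      have h5 := hMID (Γ i k) (Γ i (k + 1)) (G i) (vv p ρ b i (k + 1)) (vv p ρ b i k)
        (ww p ρ b i k) (hΓpos i k) (hst k hk h1).1 (hst k hk h1).2 hGpos (hmono _) (hmono _)
        (hfin _) (hfin _) hpw h2 h3
      refine h5.trans ?_
      have h6 : ENNReal.ofReal (8 * (√(Γ i k) + 1)) *
          ∫⁻ t in Ioi (0 : ℝ), ENNReal.ofReal (mw t) * ww p ρ b i k t ≤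
          ENNReal.ofReal (8 * (x k + 1)) * WW' p ρ b i k := by
        unfold WW'
        refine mul_le_mul' (ENNReal.ofReal_le_ofReal ?_) le_rfl
        have : √(Γ i k) ≤ x k := g3
        linarith
      have h7 : ENNReal.ofReal (8 * (x k + 1)) * WW' p ρ b i k ≤
          ∑ k ∈ Finset.range K, ENNReal.ofReal (8 * (x k + 1)) * WW' p ρ b i k :=
        Finset.single_le_sum (f := fun k => ENNReal.ofReal (8 * (x k + 1)) * WW' p ρ b i k)
          (fun _ _ => zero_le) (Finset.mem_range.2 hk)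
      refine h6.trans (h7.trans ?_)
      unfold ZZ
      exact le_add_self
  -- sums
  have sv : ∑ i, vv p ρ b i 0 1 ≤ vU p ρ := by
    have := (hDIS d ι p (b 0)).2 Finset.univ ρ
    simpa [vv] using this
  have sR : ∀ k, ∑ i, (if D ≤ Γ i k ∧ Γ i k ≤ 2 * D then RR p ρ b Γ i k else 0) ≤
      4 * vU p ρ := by
    intro k
    rw [← Finset.sum_filter]
    exact hRSR d hd ι p (b k) ρ (fun i => Γ i k) _ hρ (fun i hi => (Finset.mem_filter.1 hi).2)
  have hmw : Measurable mw := by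
    unfold mw
    fun_prop
  have sw : ∀ k, ∑ i, WW' p ρ b i k ≤ 8 * vU p ρ := by
    intro k
    unfold WW'
    refine (sum_lintegral_le' _ _ _).trans ?_
    calc ∫⁻ t in Ioi (0 : ℝ), ∑ i, ENNReal.ofReal (mw t) * ww p ρ b i k t
        ≤ ∫⁻ t in Ioi (0 : ℝ), ENNReal.ofReal (mw t) * vU p ρ := by
          refine lintegral_mono fun t => ?_
          simp only
          rw [← Finset.mul_sum]
          refine mul_le_mul' le_rfl ?_
          exact (hDIS d ι p _).2 Finset.univ ρ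
      _ = (∫⁻ t in Ioi (0 : ℝ), ENNReal.ofReal (mw t)) * vU p ρ :=
          lintegral_mul_const _ hmw.ennreal_ofReal
      _ ≤ 8 * vU p ρ := mul_le_mul' hMUM le_rfl
  have tot : ∑ i, ZZ p ρ b D Γ x K i ≤ 108 * vU p ρ +
      ∑ _k ∈ Finset.range (K + 1), 2 * (4 * vU p ρ) +
      ∑ k ∈ Finset.range K, ENNReal.ofReal (8 * (x k + 1)) * (8 * vU p ρ) := by
    unfold ZZ
    rw [Finset.sum_add_distrib, Finset.sum_add_distrib, ← Finset.mul_sum]
    refine add_le_add (add_le_add (mul_le_mul' le_rfl sv) ?_) ?_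
    · rw [Finset.sum_comm]
      refine Finset.sum_le_sum fun k _ => ?_
      rw [← Finset.mul_sum]
      exact mul_le_mul' le_rfl (sR k)
    · rw [Finset.sum_comm]
      refine Finset.sum_le_sum fun k _ => ?_
      rw [← Finset.mul_sum]
      exact mul_le_mul' le_rfl (sw k)
  rw [ENNReal.ofReal_sum_of_nonneg (fun i _ => hG i)]
  refine (Finset.sum_le_sum fun i _ => key i).trans (tot.trans (le_of_eq ?_))
  have hx1 : ∀ k, 0 ≤ 8 * (x k + 1) := fun k => by have := hx k; positivity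
  have hx2 : ∀ k, 0 ≤ 64 * (x k + 1) := fun k => by have := hx k; positivity
  have e1 : ∑ k ∈ Finset.range K, ENNReal.ofReal (8 * (x k + 1)) * (8 * vU p ρ) =
      ENNReal.ofReal (∑ k ∈ Finset.range K, 64 * (x k + 1)) * vU p ρ := by
    rw [ENNReal.ofReal_sum_of_nonneg (fun k _ => hx2 k), Finset.sum_mul]
    refine Finset.sum_congr rfl fun k _ => ?_
    have e : (64 : ℝ) * (x k + 1) = 8 * (x k + 1) * 8 := by ring
    rw [e, ENNReal.ofReal_mul (hx1 k)]
    simp only [ENNReal.ofReal_ofNat]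
    ring
  have e2 : ∑ _k ∈ Finset.range (K + 1), 2 * (4 * vU p ρ) =
      ENNReal.ofReal (8 * ((K : ℝ) + 1)) * vU p ρ := by
    simp only [Finset.sum_const, Finset.card_range, nsmul_eq_mul]
    have e3 : ((K + 1 : ℕ) : ℝ≥0∞) = ENNReal.ofReal ((K : ℝ) + 1) := by
      rw [← ENNReal.ofReal_natCast]; push_cast; rfl
    rw [e3, ENNReal.ofReal_mul (by norm_num : (0 : ℝ) ≤ 8)]
    simp only [ENNReal.ofReal_ofNat]
    ring
  have e4 : (108 : ℝ≥0∞) * vU p ρ = ENNReal.ofReal 108 * vU p ρ := by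
    simp only [ENNReal.ofReal_ofNat]
  have hS0 : 0 ≤ ∑ k ∈ Finset.range K, 64 * (x k + 1) := Finset.sum_nonneg fun k _ => hx2 k
  rw [e1, e2, e4, ← add_mul, ← add_mul, ← ENNReal.ofReal_add (by norm_num) (by positivity),
    ← ENNReal.ofReal_add (by positivity) hS0]

end Pool.Agent.H97.PK.SUN
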