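import Pool.Agent.H97.PK.Targets3
import Pool.Agent.H97.PK.UNB

open MeasureTheory Set Metric Real
open scoped ENNReal NNReal

namespace Pool.Agent.H97.PK

theorem pf_unc (hEXPU : T_EXPU) (hKKT : T_KKT) (hGTI : T_GTI) (hSUN : T_SUN) : T_UNC := by
  classical
  intro d hd ι _ p q hinj hpq ρ l x K hρ hl hx h04 h02 hK hstep
  refine ENNReal.le_of_forall_pos_le_add fun ε hε _ => ?_
  obtain ⟨u, G, hu, hsum, hG, hcell, htot⟩ := hKKT (E d) volume ι (Fin (K + 1))
    (fun k i => gau (l k) (p i) (ρ i)) (fun k i y => exp_pos _)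
    (fun k i => ((hGTI d hd (l k) (hl k)).1 (p i) (ρ i)).1)
    (fun k i => ((hGTI d hd (l k) (hl k)).1 (p i) (ρ i)).2)
    (fun k i j hij a' ha' => (hGTI d hd (l k) (hl k)).2 (p i) (p j) (ρ i) (ρ j) a'
      (fun h => hij (hinj h)) ha') ε (by exact_mod_cast hε)
  -- the cells
  set b : ℕ → ι → ℝ := fun k i => if h : k < K + 1 then ρ i ^ 2 + log (u ⟨k, h⟩ i) / l k else 0
    with hb
  have hc : ∀ (k : ℕ) (hk : k < K + 1) (i : ι),
      {y : E d | ∀ j, j ≠ i → u ⟨k, hk⟩ j * gau (l k) (p j) (ρ j) y <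
        u ⟨k, hk⟩ i * gau (l k) (p i) (ρ i) y} = cell p (b k) i := by
    intro k hk i
    ext y
    simp only [cell, mem_setOf_eq, hb, hk, dif_pos, gau]
    refine forall_congr' fun j => forall_congr' fun _ => ?_
    exact gau_lt_iff (hl k) (hu _ _) (hu _ _)
  have hS := hSUN d hd ι p ρ G l x K b hρ hl hx h04 h02 hK hstep hG (fun k i hk => by
    have h1 := hcell ⟨k, Nat.lt_succ_of_le hk⟩ i
    simp only at h1
    rw [hc k (Nat.lt_succ_of_le hk) i] at h1
    exact h1)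
  -- the q side
  have hq1 : vU q ρ ≤ ∑ k : Fin (K + 1), ∫⁻ y : E d,
      ⨆ i, ENNReal.ofReal (u k i * gau (l k) (q i) (ρ i) y) := by
    have hmeas : ∀ k : Fin (K + 1), Measurable (fun y : E d =>
        ⨆ i, ENNReal.ofReal (u k i * gau (l k) (q i) (ρ i) y)) := by
      intro k
      refine Measurable.iSup fun i => ?_
      exact (((hGTI d hd (l k) (hl k)).1 (q i) (ρ i)).1.const_mul _).ennreal_ofReal
    rw [← lintegral_finsetSum _ (fun k _ => hmeas k)]
    have hU : MeasurableSet (⋃ i, closedBall (q i) (ρ i)) :=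
      MeasurableSet.iUnion fun i => isClosed_closedBall.measurableSet
    calc vU q ρ = ∫⁻ _y in (⋃ i, closedBall (q i) (ρ i)), 1 := (setLIntegral_one _).symm
      _ ≤ ∫⁻ y in (⋃ i, closedBall (q i) (ρ i)), ∑ k : Fin (K + 1),
          ⨆ i, ENNReal.ofReal (u k i * gau (l k) (q i) (ρ i) y) := by
        refine setLIntegral_mono' hU fun y hy => ?_
        obtain ⟨i, hi⟩ := mem_iUnion.1 hy
        have h1 : (1 : ℝ≥0∞) = ∑ k : Fin (K + 1), ENNReal.ofReal (u k i) := by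
          rw [← ENNReal.ofReal_sum_of_nonneg (fun k _ => (hu k i).le), hsum i, ENNReal.ofReal_one]
        rw [h1]
        refine Finset.sum_le_sum fun k _ => ?_
        refine le_trans ?_ (le_iSup _ i)
        refine ENNReal.ofReal_le_ofReal ?_
        have h2 : 1 ≤ gau (l k) (q i) (ρ i) y := by
          unfold gau
          refine one_le_exp ?_
          have h3 : ‖y - q i‖ ≤ ρ i := by rw [← dist_eq_norm]; exact mem_closedBall.1 hi
          have h4 : ‖y - q i‖ ^ 2 ≤ ρ i ^ 2 := pow_le_pow_left₀ (norm_nonneg _) h3 2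
          exact mul_nonneg (hl k).le (by linarith)
        exact le_mul_of_one_le_right (hu k i).le h2
      _ ≤ _ := setLIntegral_le_lintegral _ _
  have hq2 : ∀ k : Fin (K + 1), ∫⁻ y : E d,
      ⨆ i, ENNReal.ofReal (u k i * gau (l k) (q i) (ρ i) y) ≤
      ∫⁻ y : E d, ⨆ i, ENNReal.ofReal (u k i * gau (l k) (p i) (ρ i) y) := by
    intro k
    have := hEXPU d hd ι p q hpq (l k) (hl k) (fun i => log (u k i) + l k * ρ i ^ 2)
    simp only [u_gau (hu _ _)]
    exact this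
  calc vU q ρ ≤ ∑ k : Fin (K + 1), ∫⁻ y : E d,
      ⨆ i, ENNReal.ofReal (u k i * gau (l k) (q i) (ρ i) y) := hq1
    _ ≤ ∑ k : Fin (K + 1), ∫⁻ y : E d,
      ⨆ i, ENNReal.ofReal (u k i * gau (l k) (p i) (ρ i) y) := Finset.sum_le_sum fun k _ => hq2 k
    _ ≤ ENNReal.ofReal (∑ i, G i + ε) := htot
    _ = ENNReal.ofReal (∑ i, G i) + ε := by
      rw [ENNReal.ofReal_add (Finset.sum_nonneg fun i _ => hG i) ε.coe_nonneg,
        ENNReal.ofReal_coe_nnreal]
    _ ≤ _ := by gcongr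

/-- reduction to distinct points, radii of ratio at most `R` -/
theorem inj_ratio (d : ℕ) (C : ℝ≥0∞) (R : ℝ)
    (H : ∀ (ι : Type) [Fintype ι] (p q : ι → E d) (ρ : ι → ℝ), Function.Injective p →
      Contr p q → (∀ i, 0 < ρ i) → (∀ i j, ρ i ≤ R * ρ j) → vU q ρ ≤ C * vU p ρ) :
    ∀ (ι : Type) [Fintype ι] (p q : ι → E d) (ρ : ι → ℝ), Contr p q → (∀ i, 0 < ρ i) →
      (∀ i j, ρ i ≤ R * ρ j) → vU q ρ ≤ C * vU p ρ := by
  classical
  intro ι _ p q ρ hpq hρ hR
  have hex : ∀ c : Set.range p, ∃ i, p i = c ∧ ∀ j, p j = c → ρ j ≤ ρ i := by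
    rintro ⟨_, i, rfl⟩
    obtain ⟨k, hk, hmax⟩ := (Finset.univ.filter fun j => p j = p i).exists_max_image ρ
      ⟨i, Finset.mem_filter.2 ⟨Finset.mem_univ _, rfl⟩⟩
    exact ⟨k, (Finset.mem_filter.1 hk).2, fun j hj =>
      hmax j (Finset.mem_filter.2 ⟨Finset.mem_univ _, hj⟩)⟩
  choose t ht htmax using hex
  have hinj : Function.Injective fun c => p (t c) := by
    intro c c' h
    apply Subtype.ext
    rw [← ht c, ← ht c']
    exact h
  have h1 := H (Set.range p) (fun c => p (t c)) (fun c => q (t c)) (fun c => ρ (t c)) hinj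
    (fun c c' => hpq _ _) (fun c => hρ _) (fun c c' => hR _ _)
  have h2 : vU q ρ ≤ vU (fun c => q (t c)) (fun c => ρ (t c)) := by
    refine measure_mono (iUnion_subset fun i => ?_)
    refine subset_iUnion_of_subset (⟨p i, i, rfl⟩ : Set.range p) ?_
    have h3 : p (t ⟨p i, i, rfl⟩) = p i := ht ⟨p i, i, rfl⟩
    have h4 : q i = q (t ⟨p i, i, rfl⟩) := by
      have h5 := hpq i (t ⟨p i, i, rfl⟩)
      rw [h3, dist_self] at h5
      exact dist_le_zero.1 h5
    rw [h4]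
    exact closedBall_subset_closedBall (htmax ⟨p i, i, rfl⟩ i rfl)
  have h3 : vU (fun c => p (t c)) (fun c => ρ (t c)) ≤ vU p ρ :=
    measure_mono (iUnion_subset fun c => subset_iUnion (fun i => closedBall (p i) (ρ i)) (t c))
  exact h2.trans (h1.trans (mul_le_mul_right h3 _))

/-- the union inequality with the constants of `T_GRB` -/
theorem unc_grb (hUNC : T_UNC) (hGRB : T_GRB) (d : ℕ) (hd : 3 ≤ d) (R : ℝ) (hR : 1 ≤ R)
    (ι : Type) [Fintype ι] (p q : ι → E d) (ρ : ι → ℝ) (hinj : Function.Injective p)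
    (hpq : Contr p q) (hρ : ∀ i, 0 < ρ i) (hrat : ∀ i j, ρ i ≤ R * ρ j) :
    vU q ρ ≤ ENNReal.ofReal (140 * d + 340 * d * log R) * vU p ρ := by
  have hD : (3 : ℝ) ≤ d := by exact_mod_cast hd
  rcases isEmpty_or_nonempty ι with hι | hι
  · simp [vU]
  obtain ⟨i0, hi0⟩ := Finite.exists_max ρ
  have hR0 : 0 < ρ i0 := hρ i0
  obtain ⟨K, y, x, hy, hx, hy4, hy2, hyK, hst, htot⟩ := hGRB (d : ℝ) R hD hR
  have hα1 : ∀ i, ρ i ^ 2 / ρ i0 ^ 2 ≤ 1 := by
    intro i
    rw [div_le_one (by positivity)]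
    exact pow_le_pow_left₀ (hρ i).le (hi0 i) 2
  have hα0 : ∀ i, 0 < ρ i ^ 2 / ρ i0 ^ 2 := fun i =>
    div_pos (pow_pos (hρ i) 2) (pow_pos hR0 2)
  have e : ∀ k i, y k / ρ i0 ^ 2 * ρ i ^ 2 = y k * (ρ i ^ 2 / ρ i0 ^ 2) := by
    intro k i
    ring
  have hU := hUNC d (by omega) ι p q hinj hpq ρ (fun k => y k / ρ i0 ^ 2) x K hρ
    (fun k => div_pos (hy k) (pow_pos hR0 2)) hx (by
      intro i
      simp only [e]
      nlinarith [hα1 i, hα0 i, hy 0]) (by
      intro i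
      simp only [e]
      nlinarith [hα1 i, hα0 i, hy 0]) (by
      intro i
      simp only [e]
      have h1 : ρ i0 ^ 2 ≤ R ^ 2 * ρ i ^ 2 := by
        rw [← mul_pow]
        exact pow_le_pow_left₀ hR0.le (hrat i0 i) 2
      have h2 : 1 ≤ R ^ 2 * (ρ i ^ 2 / ρ i0 ^ 2) := by
        rw [← mul_div_assoc, le_div_iff₀ (by positivity), one_mul]
        exact h1
      calc (d : ℝ) = d * 1 := (mul_one _).symm
        _ ≤ d * (R ^ 2 * (ρ i ^ 2 / ρ i0 ^ 2)) := by gcongr
        _ = d * R ^ 2 * (ρ i ^ 2 / ρ i0 ^ 2) := by ring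
        _ ≤ y K * (ρ i ^ 2 / ρ i0 ^ 2) := mul_le_mul_of_nonneg_right hyK (hα0 i).le) (by
      intro k i hk hlt
      simp only [e] at hlt ⊢
      obtain ⟨h1, h2, h3⟩ := hst k _ hk (hα0 i) (hα1 i) hlt
      exact ⟨div_le_div_of_nonneg_right h1 (by positivity), h2, h3⟩)
  refine hU.trans ?_
  gcongr

theorem pf_unl (hUNC : T_UNC) (hGRB : T_GRB) (hBLM : T_BLM) : T_UNL := by
  intro d hd R hR ι _ p q ρ hpq hρ hrat
  have hD : (3 : ℝ) ≤ d := by exact_mod_cast hd
  have hD0 : (0 : ℝ) < d := by linarith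
  rcases le_total R (4 * d) with h | h
  · rw [min_eq_left h]
    have h1 := inj_ratio d (ENNReal.ofReal (140 * d + 340 * d * log R)) R
      (fun ι _ p q ρ hinj hpq hρ hrat => unc_grb hUNC hGRB d hd R hR ι p q ρ hinj hpq hρ hrat)
      ι p q ρ hpq hρ hrat
    refine h1.trans (mul_le_mul' (ENNReal.ofReal_le_ofReal ?_) le_rfl)
    have hl : 0 ≤ log R := log_nonneg hR
    nlinarith [mul_nonneg hD0.le hl]
  · rw [min_eq_right h]
    have h4 : (1 : ℝ) ≤ 4 * d := by linarith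
    have h0 := hBLM d (by omega) (ENNReal.ofReal (140 * d + 340 * d * log (4 * d)))
      (fun ι _ p q ρ hinj hpq hρ hrat => unc_grb hUNC hGRB d hd (4 * d) h4 ι p q ρ hinj hpq hρ hrat)
    have h1 := inj_ratio d (ENNReal.ofReal (2 * exp (1 / 2)) *
      ENNReal.ofReal (140 * d + 340 * d * log (4 * d))) R
      (fun ι _ p q ρ hinj hpq hρ _ => h0 ι p q ρ hinj hpq hρ)
      ι p q ρ hpq hρ hrat
    refine h1.trans (mul_le_mul' ?_ le_rfl)
    rw [← ENNReal.ofReal_mul (by positivity)]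
    refine ENNReal.ofReal_le_ofReal ?_
    -- log 12 ≥ 2.4
    have hL : 12 / 5 ≤ log (4 * d) := by
      have h12 : (12 : ℝ) ≤ 4 * d := by linarith
      have : 12 / 5 ≤ log 12 := by
        rw [le_log_iff_exp_le (by norm_num)]
        have e1 : exp 1 < 2.7182818286 := exp_one_lt_d9
        have e2 : exp (12 / 5) = exp 1 ^ (12 / 5 : ℝ) := by
          rw [← exp_mul]; norm_num
        have e3 : exp (12 / 5) ^ 5 ≤ 12 ^ 5 := by
          rw [← exp_nat_mul]
          have : ((5 : ℕ) : ℝ) * (12 / 5) = ((12 : ℕ) : ℝ) * 1 := by norm_num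
          rw [this, exp_nat_mul]
          calc exp 1 ^ 12 ≤ 2.7182818286 ^ 12 := pow_le_pow_left₀ (exp_pos 1).le e1.le 12
            _ ≤ 12 ^ 5 := by norm_num
        exact le_of_pow_le_pow_left₀ (by norm_num) (by norm_num) e3
      exact this.trans (log_le_log (by norm_num) h12)
    have hE : exp (1 / 2) ≤ 1.6488 := by
      have e1 : exp 1 < 2.7182818286 := exp_one_lt_d9
      have e3 : exp (1 / 2) ^ 2 ≤ 1.6488 ^ 2 := by
        rw [← exp_nat_mul]
        have : ((2 : ℕ) : ℝ) * (1 / 2) = 1 := by norm_num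
        rw [this]
        exact e1.le.trans (by norm_num)
      exact le_of_pow_le_pow_left₀ (by norm_num) (by norm_num) e3
    have hA : 0 ≤ 140 * (d : ℝ) + 340 * d * log (4 * d) := by positivity
    calc 2 * exp (1 / 2) * (140 * d + 340 * d * log (4 * d)) ≤
        2 * 1.6488 * (140 * d + 340 * d * log (4 * d)) := by gcongr
      _ ≤ 140 * d * (1 + 9 * log (4 * d)) := by
        nlinarith [mul_le_mul_of_nonneg_left hL hD0.le]

end Pool.Agent.H97.PK
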