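import Pool.Agent.H97.PK.Targets3
import Pool.Agent.H66.PK.WTS

/-!
WTR: from unions to all nonnegative weights, radii of ratio at most `R` (after H66 WTS).
-/

open MeasureTheory Set Metric Real
open scoped ENNReal

namespace Pool.Agent.H97.PK

open Pool.Agent.H66.PK Pool.Agent.H65k

theorem pf_wtr (hBIN : T_BIN) : T_WTR := by
  intro d hd C R0 hC hun n p q ρ hpq hρ hrat τ hτ hτ0
  -- partial sums
  have hS : ∀ m : ℕ, ∑ k ∈ Finset.range m, (volume (lev ρ q k)).toReal ≤
      8 / 5 * C * ∑ k ∈ Finset.range m, (volume (lev ρ p k)).toReal := by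
    intro m
    rcases Nat.eq_zero_or_pos m with rfl | hm
    · simp
    have hq1 : (1 - exp (-1)) * ∑ k ∈ Finset.range m, (volume (lev ρ q k)).toReal ≤
        (m : ℝ) * ∑ R : Finset (Fin n), wt n m R *
          (volume {x : E d | (R ∩ Nb ρ q x).Nonempty}).toReal := by
      rw [← (int_min ρ q m).2, ← (int_rand ρ q m).2, ← integral_const_mul]
      refine integral_mono ((int_min ρ q m).1.const_mul _) (int_rand ρ q m).1 fun x => ?_
      exact (hBIN n m hm (Nb ρ q x)).2
    have hp1 : (m : ℝ) * ∑ R : Finset (Fin n), wt n m R *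
          (volume {x : E d | (R ∩ Nb ρ p x).Nonempty}).toReal ≤
        ∑ k ∈ Finset.range m, (volume (lev ρ p k)).toReal := by
      rw [← (int_min ρ p m).2, ← (int_rand ρ p m).2]
      refine integral_mono (int_rand ρ p m).1 (int_min ρ p m).1 fun x => ?_
      exact (hBIN n m hm (Nb ρ p x)).1
    have hR : ∀ R : Finset (Fin n), (volume {x : E d | (R ∩ Nb ρ q x).Nonempty}).toReal ≤
        C * (volume {x : E d | (R ∩ Nb ρ p x).Nonempty}).toReal := by
      intro R
      have h1 := hun R (fun i => p i) (fun i => q i) (fun i => ρ i)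
        (fun i j => hpq i j) (fun i => hρ i) (fun i j => hrat i j)
      unfold vU at h1
      rw [← union_eq ρ q R, ← union_eq ρ p R] at h1
      have h2 := ENNReal.toReal_mono (ENNReal.mul_ne_top ENNReal.ofReal_ne_top
        (union_fin ρ p R).ne) h1
      rwa [ENNReal.toReal_mul, ENNReal.toReal_ofReal hC] at h2
    have h3 : (m : ℝ) * ∑ R : Finset (Fin n), wt n m R *
          (volume {x : E d | (R ∩ Nb ρ q x).Nonempty}).toReal ≤
        C * ((m : ℝ) * ∑ R : Finset (Fin n), wt n m R *
          (volume {x : E d | (R ∩ Nb ρ p x).Nonempty}).toReal) := by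
      rw [mul_left_comm C, Finset.mul_sum (a := C)]
      refine mul_le_mul_of_nonneg_left ?_ (Nat.cast_nonneg m)
      refine Finset.sum_le_sum fun R _ => ?_
      have := mul_le_mul_of_nonneg_left (hR R) (wt_nonneg hm R)
      linarith
    have he : (5 : ℝ) / 8 ≤ 1 - exp (-1) := by
      have h4 : (8 : ℝ) / 3 ≤ exp 1 := by linarith [exp_one_gt_d9]
      have h5 : exp (-1) ≤ 3 / 8 := by
        rw [exp_neg, inv_le_comm₀ (exp_pos 1) (by norm_num)]
        linarith
      linarith
    have h6 : 0 ≤ ∑ k ∈ Finset.range m, (volume (lev ρ q k)).toReal :=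
      Finset.sum_nonneg fun k _ => ENNReal.toReal_nonneg
    have h7 : (5 : ℝ) / 8 * ∑ k ∈ Finset.range m, (volume (lev ρ q k)).toReal ≤
        C * ∑ k ∈ Finset.range m, (volume (lev ρ p k)).toReal := by
      calc (5 : ℝ) / 8 * ∑ k ∈ Finset.range m, (volume (lev ρ q k)).toReal ≤
          (1 - exp (-1)) * ∑ k ∈ Finset.range m, (volume (lev ρ q k)).toReal :=
            mul_le_mul_of_nonneg_right he h6
        _ ≤ _ := hq1
        _ ≤ _ := h3
        _ ≤ _ := mul_le_mul_of_nonneg_left hp1 hC
    linarith
  -- Abel summation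
  set t : ℕ → ℝ := fun k => if h : k < n then τ ⟨k, h⟩ else 0 with ht
  have hab := abel_le n t (fun k => (volume (lev ρ q k)).toReal)
    (fun k => 8 / 5 * C * (volume (lev ρ p k)).toReal) (by
      intro k hk
      rw [ht]
      simp only
      rw [dif_pos hk, dif_pos (by omega : k < n)]
      exact hτ (by simp)) (by
      intro k hk
      rw [ht]
      simp only
      rw [dif_pos hk]
      exact hτ0 _) (by
      intro m _
      rw [← Finset.mul_sum]
      exact hS m)
  rw [Finset.sum_range, Finset.sum_range] at hab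
  have e1 : ∀ k : Fin n, t k = τ k := by
    intro k
    rw [ht]
    simp
  simp only [e1] at hab
  have e2 : ∀ (r : Fin n → E d) (k : Fin n), volume (lev ρ r k) = volume {x : E d | k.val + 1 ≤
      (Finset.univ.filter (fun i => dist x (r i) ≤ ρ i)).card} := by
    intro r k
    congr 1
  simp only [e2] at hab
  refine hab.trans (le_of_eq ?_)
  rw [Finset.mul_sum]
  exact Finset.sum_congr rfl fun k _ => by ring

end Pool.Agent.H97.PK
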