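import Pool.Agent.H97.PK.All
import Pool.Agent.H97.PK.SUN
import Pool.Agent.H97.PK.UNC
import Pool.Agent.H97.PK.WTR
import Pool.Agent.H14.PK.LAR
import Pool.Agent.H33.PK.ITR
import Pool.Agent.H33.PK.RSR
import Pool.Agent.H3.PK.KAP
import Pool.Agent.H3.PK.MUM
import Pool.Agent.H12.PK.MID
import Pool.Agent.H12.PK.TRI
import Pool.Agent.H84.PK.GRB
import Pool.Agent.H85.PK.BLM

/-!
Kneser-Poulsen up to a linear factor: assembly.
-/

open MeasureTheory Set Metric Real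
open scoped ENNReal

namespace Pool.Agent.H97.PK.All3

open Pool.Agent.H97.PK Pool.Agent.H97.PK.All

theorem aSUN : T_SUN := SUN.pf_sun Pool.Agent.H14.PK.pf_lar Pool.Agent.H33.PK.pf_itr aDIS
  (Pool.Agent.H33.PK.pf_rsr aGRO aDIS) Pool.Agent.H3.PK.pf_mum
  (Pool.Agent.H12.PK.pf_mid Pool.Agent.H3.PK.pf_kap) Pool.Agent.H12.PK.pf_tri

theorem aUNC : T_UNC := pf_unc aEXPU aKKT aGTI aSUN

theorem aUNL : T_UNL := pf_unl aUNC Pool.Agent.H84.PK.pf_grb (Pool.Agent.H85.PK.pf_blm aGRO)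

/-- Kneser's weighted inequality up to a linear factor. -/
theorem main_linear (d n : ℕ) (hd : 1 ≤ d) (p q : Fin n → EuclideanSpace ℝ (Fin d))
    (ρ : Fin n → ℝ) (hρ : ∀ i, 0 < ρ i) (R : ℝ) (hR : ∀ i j, ρ i ≤ R * ρ j)
    (hpq : ∀ i j, dist (q i) (q j) ≤ dist (p i) (p j))
    (τ : Fin n → ℝ) (hτ : Antitone τ) (hτ0 : ∀ k, 0 ≤ τ k) :
    ∑ k : Fin n, τ k *
        (MeasureTheory.volume
          {x : EuclideanSpace ℝ (Fin d) |
            k.val + 1 ≤ (Finset.univ.filter (fun i => dist x (q i) ≤ ρ i)).card}).toReal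
      ≤ 224 * (d : ℝ) * (1 + 9 * Real.log (min R (4 * d))) *
    ∑ k : Fin n, τ k *
        (MeasureTheory.volume
          {x : EuclideanSpace ℝ (Fin d) |
            k.val + 1 ≤ (Finset.univ.filter (fun i => dist x (p i) ≤ ρ i)).card}).toReal := by
  rcases Nat.eq_zero_or_pos n with rfl | hn
  · simp
  have hR1 : 1 ≤ R := by
    have h := hR ⟨0, hn⟩ ⟨0, hn⟩
    have h0 := hρ ⟨0, hn⟩
    by_contra hc
    push Not at hc
    nlinarith
  have hd1 : (1 : ℝ) ≤ d := by exact_mod_cast hd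
  have hlog : 0 ≤ log (min R (4 * d)) := log_nonneg (le_min hR1 (by linarith))
  by_cases h3 : 3 ≤ d
  · have h := pf_wtr aBIN d hd (140 * d * (1 + 9 * log (min R (4 * d)))) R (by positivity)
      (fun ι _ p q ρ h1 h2 h4 => aUNL d h3 R hR1 ι p q ρ h1 h2 h4) n p q ρ hpq hρ hR τ hτ hτ0
    refine h.trans (le_of_eq ?_)
    ring
  · have h := Pool.Agent.H65k.kneser_main d n p q ρ hρ hpq (Or.inl (by omega)) τ hτ
    refine h.trans (le_mul_of_one_le_left (Finset.sum_nonneg fun k _ =>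
      mul_nonneg (hτ0 k) ENNReal.toReal_nonneg) ?_)
    nlinarith [mul_nonneg (by linarith : (0 : ℝ) ≤ d) hlog]

end Pool.Agent.H97.PK.All3
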