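import Pool.Agent.H97.PK.LCI
import Pool.Agent.H56.PK.KPI
import Pool.Agent.H42.PK.RNK
import Pool.Agent.H51.PK.ISL
import Pool.Agent.H67.PK.FUB
import Pool.Agent.H19.PK.TAN
import Pool.Agent.H50.PK.GAM
import Pool.Agent.H22.PK.INT

/-!
The intersection inequality up to a factor of order `√d`: assembly.
-/

open MeasureTheory Set Metric Real
open scoped ENNReal

namespace Pool.Agent.H97.PK.AllInt

open Pool.Agent.H97.PK

theorem aINT : T_INT := Pool.Agent.H22.PK.INT.pf_int Pool.Agent.H56.PK.pf_kpi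
  Pool.Agent.H42.PK.pf_rnk (Pool.Agent.H51.PK.pf_isl Pool.Agent.H67.PK.pf_fub) pf_lci
  Pool.Agent.H19.PK.pf_tan

/-- Intersections of balls under contractions. -/
theorem main_int (d n : ℕ) (hd : 3 ≤ d) (hn : 1 ≤ n) (p q : Fin n → EuclideanSpace ℝ (Fin d))
    (ρ : Fin n → ℝ) (hρ : ∀ i, 0 < ρ i) (hpq : ∀ i j, dist (q i) (q j) ≤ dist (p i) (p j)) :
    (volume (⋂ i, closedBall (p i) (ρ i))).toReal ≤
      Gamma ((d : ℝ) / 2) * (2 * exp 1 / ((d : ℝ) - 2)) ^ (((d : ℝ) - 2) / 2) *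
        (volume (⋂ i, closedBall (q i) (ρ i))).toReal ∧
    Gamma ((d : ℝ) / 2) * (2 * exp 1 / ((d : ℝ) - 2)) ^ (((d : ℝ) - 2) / 2) ≤
      3 * √(((d : ℝ) - 2) / 2) := by
  have hne : Nonempty (Fin n) := ⟨⟨0, hn⟩⟩
  obtain ⟨m, rfl⟩ : ∃ m, d = m + 2 := ⟨d - 2, by omega⟩
  have hm : 1 ≤ m := by omega
  have hm' : (1 : ℝ) ≤ m := by exact_mod_cast hm
  have e1 : ((m + 2 : ℕ) : ℝ) - 2 = m := by push_cast; ring
  have e2 : ((m + 2 : ℕ) : ℝ) / 2 = (m : ℝ) / 2 + 1 := by push_cast; ring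
  have hpos : 0 ≤ Gamma (((m + 2 : ℕ) : ℝ) / 2) *
      (2 * exp 1 / (((m + 2 : ℕ) : ℝ) - 2)) ^ ((((m + 2 : ℕ) : ℝ) - 2) / 2) := by
    rw [e1, e2]
    exact mul_nonneg (Gamma_pos_of_pos (by positivity)).le (by positivity)
  constructor
  · have h := aINT (m + 2) hd (Fin n) p q ρ hpq hρ
    have hfin : ∀ r : Fin n → EuclideanSpace ℝ (Fin (m + 2)), vI r ρ ≠ ⊤ := by
      intro r
      refine ne_of_lt (lt_of_le_of_lt (measure_mono (iInter_subset _ (⟨0, hn⟩ : Fin n))) ?_)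
      exact measure_closedBall_lt_top
    have h2 := ENNReal.toReal_mono (ENNReal.mul_ne_top ENNReal.ofReal_ne_top (hfin q)) h
    rw [ENNReal.toReal_mul, ENNReal.toReal_ofReal hpos] at h2
    exact h2
  · have h := Pool.Agent.H50.PK.pf_GAM m hm
    rw [e1, e2]
    exact h

end Pool.Agent.H97.PK.AllInt
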