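import Pool.Agent.H97.PK.AXM
import Pool.Agent.H56.PK.WKC
import Pool.Agent.H68.PK.KNS
import Pool.Agent.H87.PK.POL
import Pool.Agent.H87.PK.ORD
import Pool.Agent.H87.PK.TNG
import Pool.Agent.H81.PK.SLW
import Pool.Agent.H67.PK.FUB
import Pool.Agent.H67.PK.RD1
import Pool.Agent.H67.PK.NM3
import Pool.Agent.H67.PK.NMG
import Pool.Agent.H48.PK.NM4
import Pool.Agent.H42.PK.RNK

/-!
Small constants for equal radii: assembly.
-/

open MeasureTheory Set Metric Real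
open scoped ENNReal

namespace Pool.Agent.H97.PK.AllSmall

open Pool.Agent.H97.PK

theorem aWKC : T_WKC := Pool.Agent.H56.PK.pf_wkc
  (Pool.Agent.H68.PK.pf_kns Pool.Agent.H87.PK.pf_pol Pool.Agent.H87.PK.pf_ord)

theorem aAXM : T_AXM := pf_axm aWKC Pool.Agent.H87.PK.pf_tng
  (Pool.Agent.H81.PK.pf_slw Pool.Agent.H67.PK.pf_fub) Pool.Agent.H42.PK.pf_rnk

/-- comparison with one-dimensional integrals -/
theorem one_dim (d : ℕ) (hd : 3 ≤ d) (x C : ℝ) (hx : 1 < x) (hC : 0 ≤ C)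
    (h0 : (∫ s in Ioc (0 : ℝ) x, (1 : ℝ) * (x - s) ^ (((d - 2 : ℕ) : ℝ) / 2 - 1)) ≤
      C * ∫ s in Ioc (0 : ℝ) x, min 1 (s ^ ((d : ℝ) / 2)) *
        (x - s) ^ (((d - 2 : ℕ) : ℝ) / 2 - 1))
    (h1 : (∫ s in Ioc (0 : ℝ) x, s ^ ((d : ℝ) / 2) * (x - s) ^ (((d - 2 : ℕ) : ℝ) / 2 - 1)) ≤
      C * ∫ s in Ioc (0 : ℝ) x, min 1 (s ^ ((d : ℝ) / 2)) *
        (x - s) ^ (((d - 2 : ℕ) : ℝ) / 2 - 1))
    (n : ℕ) (p q : Fin n → E d) (r : ℝ) (hpq : Contr p q) (hr : 0 < r) (τ : Fin n → ℝ)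
    (hτ : Antitone τ) (hτ0 : ∀ k, 0 ≤ τ k) : WW τ q r ≤ C * WW τ p r := by
  have hd0 : (0 : ℝ) ≤ (d : ℝ) / 2 := by positivity
  have hm : 1 ≤ d - 2 := by omega
  have hc1 : Continuous (fun s : ℝ => s ^ ((d : ℝ) / 2)) := continuous_id.rpow_const
    (fun _ => Or.inr hd0)
  have hc2 : Continuous (fun s : ℝ => min 1 (s ^ ((d : ℝ) / 2))) := continuous_const.min hc1
  have hx0 : 0 < x := by linarith
  have R := Pool.Agent.H67.PK.pf_rd1 (d - 2) hm
  have hκ : 0 ≤ ((d - 2 : ℕ) : ℝ) / 2 * (volume (ball (0 : E (d - 2)) 1)).toReal := by positivity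
  refine aAXM d hd x C hx hC ?_ ?_ n p q r hpq hr τ hτ hτ0
  · rw [R _ continuous_const x hx0, R _ hc2 x hx0]
    calc _ ≤ ((d - 2 : ℕ) : ℝ) / 2 * (volume (ball (0 : E (d - 2)) 1)).toReal * (C * _) :=
          mul_le_mul_of_nonneg_left h0 hκ
      _ = _ := by ring
  · rw [R _ hc1 x hx0, R _ hc2 x hx0]
    calc _ ≤ ((d - 2 : ℕ) : ℝ) / 2 * (volume (ball (0 : E (d - 2)) 1)).toReal * (C * _) :=
          mul_le_mul_of_nonneg_left h1 hκ
      _ = _ := by ring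

/-- Kneser's weighted inequality for equal radii up to small factors. -/
theorem main_small (d n : ℕ) (hd : 3 ≤ d) (p q : Fin n → EuclideanSpace ℝ (Fin d)) (r : ℝ)
    (hr : 0 < r) (hpq : ∀ i j, dist (q i) (q j) ≤ dist (p i) (p j))
    (τ : Fin n → ℝ) (hτ : Antitone τ) (hτ0 : ∀ k, 0 ≤ τ k) :
    ∑ k : Fin n, τ k *
        (MeasureTheory.volume
          {x : EuclideanSpace ℝ (Fin d) |
            k.val + 1 ≤ (Finset.univ.filter (fun i => dist x (q i) ≤ r)).card}).toReal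
      ≤ (if d = 3 then 4 / 3 else if d = 4 then (27 + 6 * √3) / 23 else
        √(2 * π * (d + 1)) * √(4 / 3) ^ (d - 2)) *
    ∑ k : Fin n, τ k *
        (MeasureTheory.volume
          {x : EuclideanSpace ℝ (Fin d) |
            k.val + 1 ≤ (Finset.univ.filter (fun i => dist x (p i) ≤ r)).card}).toReal := by
  by_cases h3 : d = 3
  · subst h3
    rw [if_pos rfl]
    exact one_dim 3 le_rfl (1423 / 1000) (4 / 3) (by norm_num) (by norm_num)
      Pool.Agent.H67.PK.pf_nm3.1 Pool.Agent.H67.PK.pf_nm3.2 n p q r hpq hr τ hτ hτ0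
  rw [if_neg h3]
  by_cases h4 : d = 4
  · subst h4
    rw [if_pos rfl]
    have h3' : (1 : ℝ) < √3 := by
      rw [lt_sqrt (by norm_num)]
      norm_num
    exact one_dim 4 (by norm_num) (√3) _ h3' (by positivity)
      Pool.Agent.H48.PK.pf_nm4.1 Pool.Agent.H48.PK.pf_nm4.2 n p q r hpq hr τ hτ hτ0
  rw [if_neg h4]
  have h := Pool.Agent.H67.PK.pf_nmg d (d - 2) hd (by omega)
  exact one_dim d hd 4 _ (by norm_num) (by positivity) h.1 h.2 n p q r hpq hr τ hτ hτ0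

end Pool.Agent.H97.PK.AllSmall
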