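import Mathlib

/-!
Kneser-Poulsen up to a polynomial factor: definitions.
-/

open MeasureTheory Set Metric
open scoped ENNReal

namespace Pool.Agent.H97.PK

abbrev E (d : ℕ) := EuclideanSpace ℝ (Fin d)

/-- `q` is a contraction of `p`. -/
def Contr {d : ℕ} {ι : Type} (p q : ι → E d) : Prop :=
  ∀ i j, dist (q i) (q j) ≤ dist (p i) (p j)

/-- Volume of the union of the closed balls `B(p_i, r_i)`. -/
noncomputable def vU {d : ℕ} {ι : Type} (p : ι → E d) (r : ι → ℝ) : ℝ≥0∞ :=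
  volume (⋃ i, closedBall (p i) (r i))

/-- Volume of the intersection of the closed balls `B(p_i, r_i)`. -/
noncomputable def vI {d : ℕ} {ι : Type} (p : ι → E d) (r : ι → ℝ) : ℝ≥0∞ :=
  volume (⋂ i, closedBall (p i) (r i))

/-- Open cell of `i` in the power diagram of the points `p` with weights `b`. -/
def cell {d : ℕ} {ι : Type} (p : ι → E d) (b : ι → ℝ) (i : ι) : Set (E d) :=
  {y | ∀ j, j ≠ i → ‖y - p i‖ ^ 2 - b i < ‖y - p j‖ ^ 2 - b j}

/-- The point `(y, z)` of `R^d x R^m = R^(d+m)`. -/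
noncomputable def pr {d m : ℕ} (y : E d) (z : E m) : E (d + m) :=
  WithLp.toLp 2 (Fin.append (y : Fin d → ℝ) (z : Fin m → ℝ))

/-- The embedding `y ↦ (y, 0)`. -/
noncomputable def emb {d : ℕ} (m : ℕ) (y : E d) : E (d + m) := pr y 0

/-- The Gaussian profile of the ball `B(c, ρ)` with exponent `l`. -/
noncomputable def gau {d : ℕ} (l : ℝ) (c : E d) (ρ : ℝ) (y : E d) : ℝ :=
  Real.exp (l * (ρ ^ 2 - ‖y - c‖ ^ 2))

end Pool.Agent.H97.PK
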