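import Pool.Agent.H97.PK.ITP

open MeasureTheory Set Metric Real
open scoped ENNReal NNReal RealInnerProductSpace

namespace Pool.Agent.H97.PK

theorem pf_lci : T_LCI := by
  intro d hd ι _ _ q a s t θ h0 h1
  rcases h0.eq_or_lt with rfl | h0
  · simp
  rcases h1.eq_or_lt with rfl | h1
  · simp
  -- closed and open versions have the same volume
  have hnull : ∀ s : ℝ, volume {y : E d | ∀ i, ‖y - q i‖ ^ 2 - a i ≤ s} ≤
      volume {y : E d | ∀ i, ‖y - q i‖ ^ 2 - a i < s} := by
    intro s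
    have hsub : {y : E d | ∀ i, ‖y - q i‖ ^ 2 - a i ≤ s} ⊆
        {y : E d | ∀ i, ‖y - q i‖ ^ 2 - a i < s} ∪ ⋃ i, sphere (q i) (√(a i + s)) := by
      intro y hy
      by_cases hy' : ∀ i, ‖y - q i‖ ^ 2 - a i < s
      · exact Or.inl hy'
      · push Not at hy'
        obtain ⟨i, hi⟩ := hy'
        refine Or.inr (mem_iUnion.2 ⟨i, ?_⟩)
        have h2 : ‖y - q i‖ ^ 2 = a i + s := by
          have := hy i
          linarith
        rw [mem_sphere, dist_eq_norm, ← h2, Real.sqrt_sq (norm_nonneg _)]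
    refine (measure_mono hsub).trans ((measure_union_le _ _).trans ?_)
    have hz : volume (⋃ i, sphere (q i) (√(a i + s))) = 0 := by
      refine measure_iUnion_null fun i => ?_
      have : Nontrivial (E d) := by
        have : Nonempty (Fin d) := ⟨⟨0, hd⟩⟩
        infer_instance
      exact Measure.addHaar_sphere _ _ _
    rw [hz, add_zero]
  have hopen : ∀ s : ℝ, IsOpen {y : E d | ∀ i, ‖y - q i‖ ^ 2 - a i < s} := by
    intro s
    have : {y : E d | ∀ i, ‖y - q i‖ ^ 2 - a i < s} = ⋂ i, {y | ‖y - q i‖ ^ 2 - a i < s} := by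
      ext y; simp
    rw [this]
    exact isOpen_iInter_of_finite fun i => isOpen_lt (by fun_prop) continuous_const
  have ht : 0 < 1 - θ := by linarith
  calc volume {y : E d | ∀ i, ‖y - q i‖ ^ 2 - a i ≤ s} ^ (1 - θ) *
        volume {y : E d | ∀ i, ‖y - q i‖ ^ 2 - a i ≤ t} ^ θ
      ≤ volume {y : E d | ∀ i, ‖y - q i‖ ^ 2 - a i < s} ^ (1 - θ) *
        volume {y : E d | ∀ i, ‖y - q i‖ ^ 2 - a i < t} ^ θ := by
        exact mul_le_mul' (ENNReal.rpow_le_rpow (hnull s) ht.le)
          (ENNReal.rpow_le_rpow (hnull t) h0.le)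
    _ ≤ volume {y : E d | ∀ i, ‖y - q i‖ ^ 2 - a i < (1 - θ) * s + θ * t} := by
        refine bm d θ h0 h1 _ _ _ (hopen _) (hopen _) (hopen _) ?_
        intro u hu v hv i
        have h3 := hu i
        have h4 := hv i
        rw [sq_comb]
        have h8 : 0 ≤ θ * (1 - θ) * ‖u - v‖ ^ 2 := by positivity
        nlinarith [mul_lt_mul_of_pos_left h3 ht, mul_lt_mul_of_pos_left h4 h0]
    _ ≤ _ := measure_mono fun y hy i => (hy i).le

end Pool.Agent.H97.PK
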