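import Pool.Agent.H97.PK.Targets

open MeasureTheory Set Metric Real
open scoped ENNReal

namespace Pool.Agent.H97.PK

set_option maxHeartbeats 1000000

section aux

variable {d : ℕ} {ι : Type} [Fintype ι] (p : ι → E d) (ρ : ι → ℝ) (b : ℕ → ι → ℝ)

/-- the volume of the truncated cell -/
noncomputable def vv (i : ι) (k : ℕ) (s : ℝ) : ℝ≥0∞ :=
  volume (cell p (b k) i ∩ ball (p i) (√s * ρ i))

/-- the weighted integral of the truncated cell from `s0` on -/
noncomputable def RR (Γ : ι → ℕ → ℝ) (s0 : ℝ) (i : ι) (k : ℕ) : ℝ≥0∞ :=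
  ∫⁻ s in Ioi s0, ENNReal.ofReal (Γ i k * exp (Γ i k * (1 - s))) * vv p ρ b i k s

/-- interpolated cells -/
noncomputable def ww (D : ℝ) (i : ι) (k j : ℕ) : ℝ≥0∞ :=
  volume (cell p (fun j' => (1 - exp (-(j : ℝ) / (D + 1))) * b (k + 1) j' +
    exp (-(j : ℝ) / (D + 1)) * b k j') i ∩ ball (p i) (ρ i))

open Classical in
/-- the bound for one index -/
noncomputable def ZZ (D : ℝ) (Γ : ι → ℕ → ℝ) (K J : ℕ) (i : ι) : ℝ≥0∞ :=
  ∑ k ∈ Finset.range (K + 1), (ENNReal.ofReal (9 * (D + 1)) * vv p ρ b i k 1 +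
    2 * (if D ≤ Γ i k ∧ Γ i k ≤ D + 1 then RR p ρ b Γ 1 i k else 0) +
    4 * (if 1 ≤ Γ i k then RR p ρ b Γ (1 + D ^ 2) i k else 0)) +
  ∑ k ∈ Finset.range K, ∑ j ∈ Finset.Icc 1 J, ENNReal.ofReal (81 * (D + 1)) * ww p ρ b D i k j

end aux

theorem pf_sum (hLAY : T_LAY) (hITP : T_ITP) (hDIS : T_DIS) (hONE : T_ONE) (hRSU : T_RSU)
    (hTSU : T_TSU) : T_SUM := by
  classical
  intro d hd ι _ p ρ G a K J b hρ ha hg hK hJ hG hGi
  set D : ℝ := (d : ℝ) with hDdef
  have hD : 1 ≤ D := by rw [hDdef]; exact_mod_cast hd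
  set Γ : ι → ℕ → ℝ := fun i k => a * ρ i ^ 2 * (1 + 1 / D) ^ k with hΓ
  have hgpos : ∀ i, 0 < a * ρ i ^ 2 := fun i => mul_pos ha (pow_pos (hρ i) 2)
  -- one index
  have key : ∀ i, ENNReal.ofReal (G i) ≤ ZZ p ρ b D Γ K J i := by
    intro i
    rcases (hG i).eq_or_lt with h0 | hGpos
    · rw [← h0]; simp
    have hmono : ∀ k, Monotone (vv p ρ b i k) := by
      intro k s s' hs
      refine measure_mono (inter_subset_inter_right _ (ball_subset_ball ?_))
      exact mul_le_mul_of_nonneg_right (Real.sqrt_le_sqrt hs) (hρ i).le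
    have hint : ∀ k, k ≤ K → ENNReal.ofReal (G i) ≤ ∫⁻ s in Ioi (0 : ℝ),
        ENNReal.ofReal (a * ρ i ^ 2 * (1 + 1 / D) ^ k *
          exp (a * ρ i ^ 2 * (1 + 1 / D) ^ k * (1 - s))) * vv p ρ b i k s := by
      intro k hk
      refine (hGi k i hk).trans (le_of_eq ?_)
      have hl : 0 < a * (1 + 1 / D) ^ k := by positivity
      rw [hLAY d hd (cell p (b k) i) ((hDIS d ι p (b k)).1 i).measurableSet (p i) (ρ i)
        (a * (1 + 1 / D) ^ k) (hρ i) hl]
      have e : a * (1 + 1 / D) ^ k * ρ i ^ 2 = a * ρ i ^ 2 * (1 + 1 / D) ^ k := by ring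
      simp only [e]
      rfl
    have hY : 0 < D ^ 2 := by positivity
    rcases hONE D (a * ρ i ^ 2) (G i) (D ^ 2) K J (vv p ρ b i) hD (hgpos i) (hg i) (hK i) hGpos hY
      hJ hmono hint with ⟨k, hk, h⟩ | ⟨k, hk, h1, h2, h⟩ | ⟨k, hk, h1, h⟩ |
      ⟨k, hk, j, hj1, hjJ, x, y, hx0, hx1, hy0, hxy, h⟩
    · refine h.trans ?_
      have h1 : ENNReal.ofReal (9 * (D + 1)) * vv p ρ b i k 1 ≤
          ∑ k ∈ Finset.range (K + 1), (ENNReal.ofReal (9 * (D + 1)) * vv p ρ b i k 1 +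
          2 * (if D ≤ Γ i k ∧ Γ i k ≤ D + 1 then RR p ρ b Γ 1 i k else 0) +
          4 * (if 1 ≤ Γ i k then RR p ρ b Γ (1 + D ^ 2) i k else 0)) := by
        refine le_trans ?_ (Finset.single_le_sum (f := fun k =>
          (ENNReal.ofReal (9 * (D + 1)) * vv p ρ b i k 1 +
          2 * (if D ≤ Γ i k ∧ Γ i k ≤ D + 1 then RR p ρ b Γ 1 i k else 0) +
          4 * (if 1 ≤ Γ i k then RR p ρ b Γ (1 + D ^ 2) i k else 0))) (fun _ _ => zero_le)
          (Finset.mem_range.2 (Nat.lt_succ_of_le hk)))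
        simp only [add_assoc]
        exact le_self_add
      exact h1.trans le_self_add
    · refine h.trans ?_
      have h1' : 2 * RR p ρ b Γ 1 i k ≤
          ∑ k ∈ Finset.range (K + 1), (ENNReal.ofReal (9 * (D + 1)) * vv p ρ b i k 1 +
          2 * (if D ≤ Γ i k ∧ Γ i k ≤ D + 1 then RR p ρ b Γ 1 i k else 0) +
          4 * (if 1 ≤ Γ i k then RR p ρ b Γ (1 + D ^ 2) i k else 0)) := by
        refine le_trans ?_ (Finset.single_le_sum (f := fun k =>
          (ENNReal.ofReal (9 * (D + 1)) * vv p ρ b i k 1 +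
          2 * (if D ≤ Γ i k ∧ Γ i k ≤ D + 1 then RR p ρ b Γ 1 i k else 0) +
          4 * (if 1 ≤ Γ i k then RR p ρ b Γ (1 + D ^ 2) i k else 0))) (fun _ _ => zero_le)
          (Finset.mem_range.2 (Nat.lt_succ_of_le hk)))
        have hc : D ≤ Γ i k ∧ Γ i k ≤ D + 1 := ⟨h1, h2⟩
        simp only [hc, and_self, if_true]
        exact le_trans le_add_self le_self_add
      exact le_trans (le_of_eq rfl) (h1'.trans le_self_add)
    · refine h.trans ?_
      have h1' : 4 * RR p ρ b Γ (1 + D ^ 2) i k ≤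
          ∑ k ∈ Finset.range (K + 1), (ENNReal.ofReal (9 * (D + 1)) * vv p ρ b i k 1 +
          2 * (if D ≤ Γ i k ∧ Γ i k ≤ D + 1 then RR p ρ b Γ 1 i k else 0) +
          4 * (if 1 ≤ Γ i k then RR p ρ b Γ (1 + D ^ 2) i k else 0)) := by
        refine le_trans ?_ (Finset.single_le_sum (f := fun k =>
          (ENNReal.ofReal (9 * (D + 1)) * vv p ρ b i k 1 +
          2 * (if D ≤ Γ i k ∧ Γ i k ≤ D + 1 then RR p ρ b Γ 1 i k else 0) +
          4 * (if 1 ≤ Γ i k then RR p ρ b Γ (1 + D ^ 2) i k else 0))) (fun _ _ => zero_le)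
          (Finset.mem_range.2 (Nat.lt_succ_of_le hk)))
        have hc : 1 ≤ Γ i k := h1
        simp only [hc, if_true]
        exact le_add_self
      exact le_trans (le_of_eq rfl) (h1'.trans le_self_add)
    · refine h.trans ?_
      have hjpos : (0 : ℝ) < j := by exact_mod_cast hj1
      have hθ0 : 0 < exp (-(j : ℝ) / (D + 1)) := exp_pos _
      have hθ1 : exp (-(j : ℝ) / (D + 1)) < 1 := by
        rw [Real.exp_lt_one_iff]
        exact div_neg_of_neg_of_pos (by linarith) (by linarith)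
      have h1 := hITP d ι p (b k) (b (k + 1)) i (ρ i) (exp (-(j : ℝ) / (D + 1))) x y (hρ i) hθ0 hθ1
        hx0 hx1 hy0 hxy
      have h2 : ENNReal.ofReal (81 * (D + 1)) *
          (vv p ρ b i (k + 1) (1 - x) ^ (1 - exp (-(j : ℝ) / (D + 1))) *
            vv p ρ b i k (1 + y) ^ exp (-(j : ℝ) / (D + 1))) ≤
          ENNReal.ofReal (81 * (D + 1)) * ww p ρ b D i k j := by
        gcongr
        exact h1
      have h3 : ENNReal.ofReal (81 * (D + 1)) * ww p ρ b D i k j ≤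
          ∑ k ∈ Finset.range K, ∑ j ∈ Finset.Icc 1 J,
            ENNReal.ofReal (81 * (D + 1)) * ww p ρ b D i k j := by
        refine le_trans ?_ (Finset.single_le_sum (f := fun k => ∑ j ∈ Finset.Icc 1 J,
            ENNReal.ofReal (81 * (D + 1)) * ww p ρ b D i k j) (fun _ _ => zero_le)
          (Finset.mem_range.2 hk))
        exact Finset.single_le_sum (f := fun j => ENNReal.ofReal (81 * (D + 1)) *
          ww p ρ b D i k j) (fun _ _ => zero_le) (Finset.mem_Icc.2 ⟨hj1, hjJ⟩)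
      exact h2.trans (h3.trans le_add_self)
  -- sums
  have sv : ∀ k, ∑ i, vv p ρ b i k 1 ≤ vU p ρ := by
    intro k
    have := (hDIS d ι p (b k)).2 Finset.univ ρ
    simpa [vv] using this
  have sR : ∀ k, ∑ i, (if D ≤ Γ i k ∧ Γ i k ≤ D + 1 then RR p ρ b Γ 1 i k else 0) ≤
      4 * vU p ρ := by
    intro k
    rw [← Finset.sum_filter]
    exact hRSU d hd ι p (b k) ρ (fun i => Γ i k) _ hρ (fun i hi => (Finset.mem_filter.1 hi).2)
  have sT : ∀ k, ∑ i, (if 1 ≤ Γ i k then RR p ρ b Γ (1 + D ^ 2) i k else 0) ≤ 2 * vU p ρ := by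
    intro k
    rw [← Finset.sum_filter]
    exact hTSU d hd ι p (b k) ρ (fun i => Γ i k) _ hρ (fun i hi => (Finset.mem_filter.1 hi).2)
  have sw : ∀ k j, ∑ i, ww p ρ b D i k j ≤ vU p ρ := by
    intro k j
    exact (hDIS d ι p _).2 Finset.univ ρ
  have tot : ∑ i, ZZ p ρ b D Γ K J i ≤
      ∑ _k ∈ Finset.range (K + 1), (ENNReal.ofReal (9 * (D + 1)) * vU p ρ + 2 * (4 * vU p ρ) +
        4 * (2 * vU p ρ)) +
      ∑ _k ∈ Finset.range K, ∑ _j ∈ Finset.Icc 1 J, ENNReal.ofReal (81 * (D + 1)) * vU p ρ := by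
    unfold ZZ
    rw [Finset.sum_add_distrib, Finset.sum_comm]
    refine add_le_add ?_ ?_
    · refine Finset.sum_le_sum fun k _ => ?_
      rw [Finset.sum_add_distrib, Finset.sum_add_distrib, ← Finset.mul_sum, ← Finset.mul_sum,
        ← Finset.mul_sum]
      gcongr
      · exact sv k
      · exact sR k
      · exact sT k
    · rw [Finset.sum_comm]
      refine Finset.sum_le_sum fun k _ => ?_
      rw [Finset.sum_comm]
      refine Finset.sum_le_sum fun j _ => ?_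
      rw [← Finset.mul_sum]
      gcongr
      exact sw k j
  rw [ENNReal.ofReal_sum_of_nonneg (fun i _ => hG i)]
  refine (Finset.sum_le_sum fun i _ => key i).trans (tot.trans ?_)
  simp only [Finset.sum_const, Finset.card_range, Nat.card_Icc, nsmul_eq_mul]
  have e1 : ((K + 1 : ℕ) : ℝ≥0∞) = ENNReal.ofReal ((K : ℝ) + 1) := by
    rw [← ENNReal.ofReal_natCast]; push_cast; rfl
  have e2 : ((K : ℕ) : ℝ≥0∞) = ENNReal.ofReal (K : ℝ) := (ENNReal.ofReal_natCast K).symm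
  have e3 : ((J + 1 - 1 : ℕ) : ℝ≥0∞) = ENNReal.ofReal (J : ℝ) := by
    rw [Nat.add_sub_cancel]; exact (ENNReal.ofReal_natCast J).symm
  have e4 : (2 : ℝ≥0∞) = ENNReal.ofReal 2 := by simp
  have e5 : (4 : ℝ≥0∞) = ENNReal.ofReal 4 := by simp
  rw [e1, e2, e3, e4, e5]
  have hK0 : (0 : ℝ) ≤ K := Nat.cast_nonneg K
  have hJ0 : (0 : ℝ) ≤ J := Nat.cast_nonneg J
  have h9 : 0 ≤ 9 * (D + 1) := by positivity
  have h81 : 0 ≤ 81 * (D + 1) := by positivity
  have e6 : ∀ (x y A B : ℝ) (V : ℝ≥0∞), 0 ≤ x → 0 ≤ y → 0 ≤ A → 0 ≤ B →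
      ENNReal.ofReal (x + 1) * (ENNReal.ofReal A * V +
      ENNReal.ofReal 2 * (ENNReal.ofReal 4 * V) +
      ENNReal.ofReal 4 * (ENNReal.ofReal 2 * V)) +
      ENNReal.ofReal x * (ENNReal.ofReal y * (ENNReal.ofReal B * V)) =
      ENNReal.ofReal ((x + 1) * (A + 2 * 4 + 4 * 2) + x * (y * B)) * V := by
    intro x y A B V hx hy hA hB
    rw [ENNReal.ofReal_add (p := (x + 1) * (A + 2 * 4 + 4 * 2)) (q := x * (y * B)) (by positivity)
      (by positivity), ENNReal.ofReal_mul (p := x + 1) (by positivity),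
      ENNReal.ofReal_add (p := A + 2 * 4) (q := 4 * 2) (by positivity) (by positivity),
      ENNReal.ofReal_add (p := A) (q := 2 * 4) (by positivity) (by positivity),
      ENNReal.ofReal_mul (p := (2 : ℝ)) (by positivity), ENNReal.ofReal_mul (p := (4 : ℝ))
      (by positivity), ENNReal.ofReal_mul (p := x) (by positivity),
      ENNReal.ofReal_mul (p := y) (by positivity)]
    ring
  rw [e6 K J _ _ _ hK0 hJ0 h9 h81]
  gcongr
  nlinarith [mul_nonneg hK0 hJ0, mul_nonneg hJ0 h81, mul_nonneg (mul_nonneg hK0 hJ0) h81]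

end Pool.Agent.H97.PK
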