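import Pool.Agent.H97.PK.Defs

/-!
Kneser-Poulsen up to a polynomial factor: targets.
-/

open MeasureTheory Set Metric Real
open scoped ENNReal

namespace Pool.Agent.H97.PK

/-- KPR: the union inequality for pairs of joint rank at most `D + 2`, arbitrary real radii. -/
def T_KPR : Prop := ∀ (D : ℕ), 1 ≤ D → ∀ (ι : Type) [Fintype ι] (p q : ι → E D), Contr p q →
  Module.finrank ℝ (vectorSpan ℝ (range fun i => (p i, q i))) ≤ D + 2 →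
  ∀ r : ι → ℝ, vU q r ≤ vU p r

/-- KPI: the intersection inequality for pairs of joint rank at most `D + 2`. -/
def T_KPI : Prop := ∀ (D : ℕ), 1 ≤ D → ∀ (ι : Type) [Fintype ι] [Nonempty ι] (p q : ι → E D),
  Contr p q → Module.finrank ℝ (vectorSpan ℝ (range fun i => (p i, q i))) ≤ D + 2 →
  ∀ r : ι → ℝ, vI p r ≤ vI q r

/-- RNK: the joint rank of embedded configurations. -/
def T_RNK : Prop := ∀ (d m : ℕ) (ι : Type) [Fintype ι] (p q : ι → E d),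
  Module.finrank ℝ (vectorSpan ℝ (range fun i => (emb m (p i), emb m (q i)))) ≤ d + d ∧
    (Contr p q → Contr (fun i => emb m (p i)) (fun i => emb m (q i)))

/-- FUB: Fubini for `R^(d+m) = R^d x R^m` and Pythagoras. -/
def T_FUB : Prop := ∀ (d m : ℕ),
  (∀ F : E (d + m) → ℝ≥0∞, Measurable F → ∫⁻ Y, F Y = ∫⁻ z : E m, ∫⁻ y : E d, F (pr y z)) ∧
  (∀ (y c : E d) (z : E m), ‖pr y z - emb m c‖ ^ 2 = ‖y - c‖ ^ 2 + ‖z‖ ^ 2)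

/-- EXPU: the weighted Gaussian functional decreases under contractions, without rank condition. -/
def T_EXPU : Prop := ∀ (d : ℕ), 1 ≤ d → ∀ (ι : Type) [Fintype ι] (p q : ι → E d), Contr p q →
  ∀ (l : ℝ), 0 < l → ∀ c : ι → ℝ,
  ∫⁻ y : E d, ⨆ i, ENNReal.ofReal (exp (c i - l * ‖y - q i‖ ^ 2)) ≤
    ∫⁻ y : E d, ⨆ i, ENNReal.ofReal (exp (c i - l * ‖y - p i‖ ^ 2))

/-- GRO: growth of the union when all radii are multiplied by the same factor. -/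
def T_GRO : Prop := ∀ (d : ℕ), 1 ≤ d → ∀ (ι : Type) [Fintype ι] (p : ι → E d) (ρ : ι → ℝ),
  ∀ t : ℝ, 1 ≤ t → vU p (fun i => t * ρ i) ≤ ENNReal.ofReal (t ^ d) * vU p ρ

/-- KKT: minimisation of `u ↦ ∑ k, ∫ max_i u_ki g_ki` over products of simplices. -/
def T_KKT : Prop := ∀ (Ω : Type) [MeasurableSpace Ω] (μ : Measure Ω) (ι κ : Type) [Fintype ι]
  [Fintype κ] [Nonempty κ] (g : κ → ι → Ω → ℝ), (∀ k i y, 0 < g k i y) →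
  (∀ k i, Measurable (g k i)) → (∀ k i, Integrable (g k i) μ) →
  (∀ k i j, i ≠ j → ∀ a : ℝ, 0 < a → μ {y | g k i y = a * g k j y} = 0) →
  ∀ ε : ℝ, 0 < ε → ∃ (u : κ → ι → ℝ) (G : ι → ℝ), (∀ k i, 0 < u k i) ∧ (∀ i, ∑ k, u k i = 1) ∧
    (∀ i, 0 ≤ G i) ∧
    (∀ k i, ENNReal.ofReal (G i) ≤
      ∫⁻ y in {y | ∀ j, j ≠ i → u k j * g k j y < u k i * g k i y}, ENNReal.ofReal (g k i y) ∂μ) ∧
    ∑ k, ∫⁻ y, ⨆ i, ENNReal.ofReal (u k i * g k i y) ∂μ ≤ ENNReal.ofReal (∑ i, G i + ε)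

/-- GTI: ties of Gaussian profiles are null; measurability and integrability. -/
def T_GTI : Prop := ∀ (d : ℕ), 1 ≤ d → ∀ (l : ℝ), 0 < l →
  (∀ (c : E d) (ρ : ℝ), Measurable (gau l c ρ) ∧ Integrable (gau l c ρ)) ∧
  (∀ (c c' : E d) (ρ ρ' a : ℝ), c ≠ c' → 0 < a →
    volume {y : E d | gau l c ρ y = a * gau l c' ρ' y} = 0)

/-- LAY: layer cake in normalised squared radii. -/
def T_LAY : Prop := ∀ (d : ℕ), 1 ≤ d → ∀ (C : Set (E d)), MeasurableSet C → ∀ (c : E d) (ρ l : ℝ),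
  0 < ρ → 0 < l →
  ∫⁻ y in C, ENNReal.ofReal (gau l c ρ y) =
    ∫⁻ s in Ioi (0 : ℝ), ENNReal.ofReal (l * ρ ^ 2 * exp (l * ρ ^ 2 * (1 - s))) *
      volume (C ∩ ball c (√s * ρ))

/-- ITP: Brunn-Minkowski between the cells of two power diagrams. -/
def T_ITP : Prop := ∀ (d : ℕ) (ι : Type) [Fintype ι] (p : ι → E d) (b b' : ι → ℝ) (i : ι)
  (ρ θ x y : ℝ), 0 < ρ → 0 < θ → θ < 1 → 0 ≤ x → x ≤ 1 → 0 ≤ y →
  (1 - θ) * (1 - x) + θ * (1 + y) ≤ 1 →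
  volume (cell p b' i ∩ ball (p i) (√(1 - x) * ρ)) ^ (1 - θ) *
    volume (cell p b i ∩ ball (p i) (√(1 + y) * ρ)) ^ θ ≤
  volume (cell p (fun j => (1 - θ) * b' j + θ * b j) i ∩ ball (p i) ρ)

/-- DIS: open cells are measurable and disjoint. -/
def T_DIS : Prop := ∀ (d : ℕ) (ι : Type) [Fintype ι] (p : ι → E d) (b : ι → ℝ),
  (∀ i, IsOpen (cell p b i)) ∧
  (∀ (S : Finset ι) (r : ι → ℝ), ∑ i ∈ S, volume (cell p b i ∩ ball (p i) (r i)) ≤ vU p r)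

/-- ONE: the one-dimensional argument. -/
def T_ONE : Prop := ∀ (D g G Y : ℝ) (K J : ℕ) (v : ℕ → ℝ → ℝ≥0∞), 1 ≤ D → 0 < g → g ≤ 1 →
  D ≤ g * (1 + 1 / D) ^ K → 0 < G → 0 < Y → (D + 1) * log ((D + 1) * (1 + Y)) + 1 ≤ J →
  (∀ k, Monotone (v k)) →
  (∀ k, k ≤ K → ENNReal.ofReal G ≤ ∫⁻ s in Ioi (0 : ℝ),
    ENNReal.ofReal (g * (1 + 1 / D) ^ k * exp (g * (1 + 1 / D) ^ k * (1 - s))) * v k s) →
  (∃ k, k ≤ K ∧ ENNReal.ofReal G ≤ ENNReal.ofReal (9 * (D + 1)) * v k 1) ∨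
  (∃ k, k ≤ K ∧ D ≤ g * (1 + 1 / D) ^ k ∧ g * (1 + 1 / D) ^ k ≤ D + 1 ∧
    ENNReal.ofReal G ≤ 2 * ∫⁻ s in Ioi (1 : ℝ),
      ENNReal.ofReal (g * (1 + 1 / D) ^ k * exp (g * (1 + 1 / D) ^ k * (1 - s))) * v k s) ∨
  (∃ k, k ≤ K ∧ 1 ≤ g * (1 + 1 / D) ^ k ∧
    ENNReal.ofReal G ≤ 4 * ∫⁻ s in Ioi (1 + Y),
      ENNReal.ofReal (g * (1 + 1 / D) ^ k * exp (g * (1 + 1 / D) ^ k * (1 - s))) * v k s) ∨
  (∃ k, k < K ∧ ∃ j, 1 ≤ j ∧ j ≤ J ∧ ∃ x y : ℝ, 0 ≤ x ∧ x ≤ 1 ∧ 0 ≤ y ∧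
    (1 - exp (-(j : ℝ) / (D + 1))) * (1 - x) + exp (-(j : ℝ) / (D + 1)) * (1 + y) ≤ 1 ∧
    ENNReal.ofReal G ≤ ENNReal.ofReal (81 * (D + 1)) *
      (v (k + 1) (1 - x) ^ (1 - exp (-(j : ℝ) / (D + 1))) * v k (1 + y) ^ exp (-(j : ℝ) / (D + 1))))

/-- RSU: contribution of the far parts of the cells for the largest exponents. -/
def T_RSU : Prop := ∀ (d : ℕ), 1 ≤ d → ∀ (ι : Type) [Fintype ι] (p : ι → E d) (b ρ Γ : ι → ℝ)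
  (S : Finset ι), (∀ i, 0 < ρ i) → (∀ i ∈ S, (d : ℝ) ≤ Γ i ∧ Γ i ≤ d + 1) →
  ∑ i ∈ S, ∫⁻ s in Ioi (1 : ℝ), ENNReal.ofReal (Γ i * exp (Γ i * (1 - s))) *
    volume (cell p b i ∩ ball (p i) (√s * ρ i)) ≤ 4 * vU p ρ

/-- TSU: contribution of the very far parts of the cells. -/
def T_TSU : Prop := ∀ (d : ℕ), 1 ≤ d → ∀ (ι : Type) [Fintype ι] (p : ι → E d) (b ρ Γ : ι → ℝ)
  (S : Finset ι), (∀ i, 0 < ρ i) → (∀ i ∈ S, 1 ≤ Γ i) →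
  ∑ i ∈ S, ∫⁻ s in Ioi (1 + (d : ℝ) ^ 2), ENNReal.ofReal (Γ i * exp (Γ i * (1 - s))) *
    volume (cell p b i ∩ ball (p i) (√s * ρ i)) ≤ 2 * vU p ρ

/-- SUM: for arbitrary families of power diagrams, equalised integrals sum up to at most
`C · vol(union)`. -/
def T_SUM : Prop := ∀ (d : ℕ), 1 ≤ d → ∀ (ι : Type) [Fintype ι] (p : ι → E d) (ρ G : ι → ℝ) (a : ℝ)
  (K J : ℕ) (b : ℕ → ι → ℝ), (∀ i, 0 < ρ i) → 0 < a → (∀ i, a * ρ i ^ 2 ≤ 1) →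
  (∀ i, (d : ℝ) ≤ a * ρ i ^ 2 * (1 + 1 / (d : ℝ)) ^ K) →
  ((d : ℝ) + 1) * log (((d : ℝ) + 1) * (1 + (d : ℝ) ^ 2)) + 1 ≤ J → (∀ i, 0 ≤ G i) →
  (∀ k i, k ≤ K → ENNReal.ofReal (G i) ≤ ∫⁻ y in cell p (b k) i,
    ENNReal.ofReal (gau (a * (1 + 1 / (d : ℝ)) ^ k) (p i) (ρ i) y)) →
  ENNReal.ofReal (∑ i, G i) ≤
    ENNReal.ofReal (((K : ℝ) + 1) * ((d : ℝ) + 1) * (17 + 81 * J)) * vU p ρ

/-- UNB: the union inequality for distinct points and radii of ratio at most `M`. -/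
def T_UNB : Prop := ∀ (d : ℕ), 1 ≤ d → ∀ (ι : Type) [Fintype ι] (p q : ι → E d),
  Function.Injective p → Contr p q → ∀ (ρ : ι → ℝ) (M : ℝ) (K J : ℕ), (∀ i, 0 < ρ i) → 1 ≤ M →
  (∀ i j, ρ i ≤ M * ρ j) → (d : ℝ) * M ^ 2 ≤ (1 + 1 / (d : ℝ)) ^ K →
  ((d : ℝ) + 1) * log (((d : ℝ) + 1) * (1 + (d : ℝ) ^ 2)) + 1 ≤ J →
  vU q ρ ≤ ENNReal.ofReal (((K : ℝ) + 1) * ((d : ℝ) + 1) * (17 + 81 * J)) * vU p ρ

/-- INJ: reduction to distinct points. -/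
def T_INJ : Prop := ∀ (d : ℕ) (C : ℝ≥0∞),
  (∀ (ι : Type) [Fintype ι] (p q : ι → E d) (ρ : ι → ℝ), Function.Injective p → Contr p q →
    (∀ i, 0 < ρ i) → vU q ρ ≤ C * vU p ρ) →
  ∀ (ι : Type) [Fintype ι] (p q : ι → E d) (ρ : ι → ℝ), Contr p q → (∀ i, 0 < ρ i) →
    vU q ρ ≤ C * vU p ρ

/-- BLK: from radii of ratio at most `d + 1` to arbitrary radii. -/
def T_BLK : Prop := ∀ (d : ℕ), 1 ≤ d → ∀ (C : ℝ≥0∞),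
  (∀ (ι : Type) [Fintype ι] (p q : ι → E d) (ρ : ι → ℝ), Function.Injective p → Contr p q →
    (∀ i, 0 < ρ i) → (∀ i j, ρ i ≤ ((d : ℝ) + 1) * ρ j) → vU q ρ ≤ C * vU p ρ) →
  ∀ (ι : Type) [Fintype ι] (p q : ι → E d) (ρ : ι → ℝ), Function.Injective p → Contr p q →
    (∀ i, 0 < ρ i) → vU q ρ ≤ ENNReal.ofReal (2 * exp 2) * C * vU p ρ

/-- CON: the constants. -/
def T_CON : Prop := ∀ (d : ℕ), 1 ≤ d → ∃ K J : ℕ,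
  (d : ℝ) * ((d : ℝ) + 1) ^ 2 ≤ (1 + 1 / (d : ℝ)) ^ K ∧
  ((d : ℝ) + 1) * log (((d : ℝ) + 1) * (1 + (d : ℝ) ^ 2)) + 1 ≤ J ∧
  2 * exp 2 * (((K : ℝ) + 1) * ((d : ℝ) + 1) * (17 + 81 * J)) ≤
    25000 * ((d : ℝ) + 1) ^ 3 * log ((d : ℝ) + 1) ^ 2

/-- UNI: the union inequality. -/
def T_UNI : Prop := ∀ (d : ℕ), 1 ≤ d → ∀ (ι : Type) [Fintype ι] (p q : ι → E d) (ρ : ι → ℝ),
  Contr p q → (∀ i, 0 < ρ i) →
  vU q ρ ≤ ENNReal.ofReal (25000 * ((d : ℝ) + 1) ^ 3 * log ((d : ℝ) + 1) ^ 2) * vU p ρ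

/-- BIN: random subsets. -/
def T_BIN : Prop := ∀ (n m : ℕ), 1 ≤ m → ∀ N : Finset (Fin n),
  (m : ℝ) * ∑ R : Finset (Fin n), (1 / (m : ℝ)) ^ R.card * (1 - 1 / (m : ℝ)) ^ (n - R.card) *
    (if (R ∩ N).Nonempty then 1 else 0) ≤ min (N.card : ℝ) m ∧
  (1 - exp (-1)) * min (N.card : ℝ) m ≤
    (m : ℝ) * ∑ R : Finset (Fin n), (1 / (m : ℝ)) ^ R.card * (1 - 1 / (m : ℝ)) ^ (n - R.card) *
      (if (R ∩ N).Nonempty then 1 else 0)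

/-- WTS: from unions to weighted sums. -/
def T_WTS : Prop := ∀ (d : ℕ), 1 ≤ d → ∀ (C : ℝ), 0 ≤ C →
  (∀ (ι : Type) [Fintype ι] (p q : ι → E d) (ρ : ι → ℝ), Contr p q → (∀ i, 0 < ρ i) →
    vU q ρ ≤ ENNReal.ofReal C * vU p ρ) →
  ∀ (n : ℕ) (p q : Fin n → E d) (ρ : Fin n → ℝ), Contr p q → (∀ i, 0 < ρ i) →
  ∀ τ : Fin n → ℝ, Antitone τ → (∀ k, 0 ≤ τ k) →
  ∑ k : Fin n, τ k * (volume {x : E d | k.val + 1 ≤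
      (Finset.univ.filter (fun i => dist x (q i) ≤ ρ i)).card}).toReal ≤
  8 / 5 * C * ∑ k : Fin n, τ k * (volume {x : E d | k.val + 1 ≤
      (Finset.univ.filter (fun i => dist x (p i) ≤ ρ i)).card}).toReal

/-- LCI: intersections of balls are log-concave in the squared radii. -/
def T_LCI : Prop := ∀ (d : ℕ), 1 ≤ d → ∀ (ι : Type) [Fintype ι] [Nonempty ι] (q : ι → E d)
  (a : ι → ℝ) (s t θ : ℝ), 0 ≤ θ → θ ≤ 1 →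
  volume {y : E d | ∀ i, ‖y - q i‖ ^ 2 - a i ≤ s} ^ (1 - θ) *
    volume {y : E d | ∀ i, ‖y - q i‖ ^ 2 - a i ≤ t} ^ θ ≤
  volume {y : E d | ∀ i, ‖y - q i‖ ^ 2 - a i ≤ (1 - θ) * s + θ * t}

/-- TAN: tangent lines of log-concave functions. -/
def T_TAN : Prop := ∀ V : ℝ → ℝ, Monotone V → (∀ t, 0 ≤ V t) → 0 < V 0 →
  (∀ s t θ : ℝ, 0 ≤ θ → θ ≤ 1 → V s ^ (1 - θ) * V t ^ θ ≤ V ((1 - θ) * s + θ * t)) →
  (∃ t, t < 0 ∧ 0 < V t) → (∃ t, 0 < t ∧ V 0 < V t) →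
  ∃ l : ℝ, 0 < l ∧ ∀ t, V t ≤ V 0 * exp (l * t)

/-- GAM: a Gamma function bound. -/
def T_GAM : Prop := ∀ m : ℕ, 1 ≤ m →
  Gamma ((m : ℝ) / 2 + 1) * (2 * exp 1 / m) ^ ((m : ℝ) / 2) ≤ 3 * √((m : ℝ) / 2)

/-- ISL: slices of intersections of balls in `R^(d+m)`. -/
def T_ISL : Prop := ∀ (d m : ℕ) (ι : Type) [Fintype ι] [Nonempty ι] (p : ι → E d) (a : ι → ℝ)
  (τ : ℝ), (∀ i, 0 ≤ a i + τ) →
  vI (fun i => emb m (p i)) (fun i => √(a i + τ)) =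
    ∫⁻ z : E m, volume {y : E d | ∀ i, ‖y - p i‖ ^ 2 - a i ≤ τ - ‖z‖ ^ 2}

/-- INT: the intersection inequality. -/
def T_INT : Prop := ∀ (d : ℕ), 3 ≤ d → ∀ (ι : Type) [Fintype ι] [Nonempty ι] (p q : ι → E d)
  (ρ : ι → ℝ), Contr p q → (∀ i, 0 < ρ i) →
  vI p ρ ≤ ENNReal.ofReal (Gamma ((d : ℝ) / 2) *
    (2 * exp 1 / ((d : ℝ) - 2)) ^ (((d : ℝ) - 2) / 2)) * vI q ρ

end Pool.Agent.H97.PK
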