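import Pool.Agent.H97.PK.Targets

/-!
Kneser-Poulsen up to a linear factor: targets (part 3).
-/

open MeasureTheory Set Metric Real
open scoped ENNReal

namespace Pool.Agent.H97.PK

/-- The weight `min (t, 1/t)^(1/4) / t` on `(0, ∞)`. -/
noncomputable def mw (t : ℝ) : ℝ := min t (1 / t) ^ ((1 : ℝ) / 4) / t

/-- The radial density `2 Γ r exp (Γ (1 - r^2))`. -/
noncomputable def rd (Γ r : ℝ) : ℝ := 2 * Γ * r * exp (Γ * (1 - r ^ 2))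

/-- LAR: layer cake in normalised radii. -/
def T_LAR : Prop := ∀ (d : ℕ), 1 ≤ d → ∀ (C : Set (E d)), MeasurableSet C → ∀ (c : E d) (ρ l : ℝ),
  0 < ρ → 0 < l →
  ∫⁻ y in C, ENNReal.ofReal (gau l c ρ y) =
    ∫⁻ r in Ioi (0 : ℝ), ENNReal.ofReal (rd (l * ρ ^ 2) r) * volume (C ∩ ball c (r * ρ))

/-- ITR: Brunn-Minkowski between the cells of two power diagrams, linear in the radii. -/
def T_ITR : Prop := ∀ (d : ℕ) (ι : Type) [Fintype ι] (p : ι → E d) (b b' : ι → ℝ) (i : ι)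
  (ρ x y : ℝ), 0 < ρ → 0 < x → x < 1 → 0 < y →
  volume (cell p b' i ∩ ball (p i) ((1 - x) * ρ)) ^ (y / (x + y)) *
    volume (cell p b i ∩ ball (p i) ((1 + y) * ρ)) ^ (x / (x + y)) ≤
  volume (cell p (fun j => y / (x + y) * b' j + x / (x + y) * b j) i ∩ ball (p i) ρ)

/-- RSR: far parts of the cells for the largest exponents, radial form. -/
def T_RSR : Prop := ∀ (d : ℕ), 1 ≤ d → ∀ (ι : Type) [Fintype ι] (p : ι → E d) (b ρ Γ : ι → ℝ)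
  (S : Finset ι), (∀ i, 0 < ρ i) → (∀ i ∈ S, (d : ℝ) ≤ Γ i ∧ Γ i ≤ 2 * d) →
  ∑ i ∈ S, ∫⁻ r in Ioi (1 : ℝ), ENNReal.ofReal (rd (Γ i) r) *
    volume (cell p b i ∩ ball (p i) (r * ρ i)) ≤ 4 * vU p ρ

/-- MUM: the total mass of the weight is `8`. -/
def T_MUM : Prop := ∫⁻ t in Ioi (0 : ℝ), ENNReal.ofReal (mw t) ≤ 8

/-- KAP: the pointwise inequality behind `T_MID`. -/
def T_KAP : Prop := ∀ Γ Γ' a b : ℝ, 0 < Γ → Γ ≤ Γ' → Γ' ≤ Γ + √Γ → 0 < a → a < 1 → 0 < b →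
  1 ≤ 4 * (√Γ + 1) * min (a / b) (b / a) ^ ((1 : ℝ) / 4) *
    ((a * rd Γ' (1 - a)) ^ (-(b / (a + b))) * (b * rd Γ (1 + b)) ^ (-(a / (a + b))))

/-- MID: one-dimensional inequality for a pair of neighbouring diagrams. -/
def T_MID : Prop := ∀ (Γ Γ' G : ℝ) (V₀ V₁ w : ℝ → ℝ≥0∞), 0 < Γ → Γ ≤ Γ' → Γ' ≤ Γ + √Γ → 0 < G →
  Monotone V₀ → Monotone V₁ → (∀ r, V₀ r ≠ ⊤) → (∀ r, V₁ r ≠ ⊤) →
  (∀ a b : ℝ, 0 < a → a < 1 → 0 < b →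
    V₀ (1 - a) ^ (b / (a + b)) * V₁ (1 + b) ^ (a / (a + b)) ≤ w (a / b)) →
  ENNReal.ofReal G ≤ 2 * ∫⁻ r in Ioc (0 : ℝ) 1, ENNReal.ofReal (rd Γ' r) * V₀ r →
  ENNReal.ofReal G ≤ 2 * ∫⁻ r in Ioi (1 : ℝ), ENNReal.ofReal (rd Γ r) * V₁ r →
  ENNReal.ofReal G ≤ ENNReal.ofReal (8 * (√Γ + 1)) *
    ∫⁻ t in Ioi (0 : ℝ), ENNReal.ofReal (mw t) * w t

/-- TRI: trichotomy for one index. -/
def T_TRI : Prop := ∀ (D G : ℝ) (K : ℕ) (Γ : ℕ → ℝ) (V : ℕ → ℝ → ℝ≥0∞), 1 ≤ D → 0 < G →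
  (∀ k, 0 < Γ k) → Γ 0 ≤ 4 → Γ 0 ≤ 2 * D → D ≤ Γ K →
  (∀ k, k < K → Γ k < D → Γ k ≤ Γ (k + 1) ∧ Γ (k + 1) ≤ Γ k + √(Γ k)) →
  (∀ k, Monotone (V k)) →
  (∀ k, k ≤ K → ENNReal.ofReal G ≤ ∫⁻ r in Ioi (0 : ℝ), ENNReal.ofReal (rd (Γ k) r) * V k r) →
  (ENNReal.ofReal G ≤ 108 * V 0 1) ∨
  (∃ k, k ≤ K ∧ D ≤ Γ k ∧ Γ k ≤ 2 * D ∧
    ENNReal.ofReal G ≤ 2 * ∫⁻ r in Ioi (1 : ℝ), ENNReal.ofReal (rd (Γ k) r) * V k r) ∨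
  (∃ k, k < K ∧ Γ k < D ∧
    ENNReal.ofReal G ≤ 2 * (∫⁻ r in Ioc (0 : ℝ) 1, ENNReal.ofReal (rd (Γ (k + 1)) r) *
      V (k + 1) r) ∧
    ENNReal.ofReal G ≤ 2 * ∫⁻ r in Ioi (1 : ℝ), ENNReal.ofReal (rd (Γ k) r) * V k r)

/-- SUN: equalised integrals sum up to at most `C · vol(union)`, general exponents `l k`. -/
def T_SUN : Prop := ∀ (d : ℕ), 1 ≤ d → ∀ (ι : Type) [Fintype ι] (p : ι → E d) (ρ G : ι → ℝ)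
  (l x : ℕ → ℝ) (K : ℕ) (b : ℕ → ι → ℝ), (∀ i, 0 < ρ i) → (∀ k, 0 < l k) → (∀ k, 0 ≤ x k) →
  (∀ i, l 0 * ρ i ^ 2 ≤ 4) → (∀ i, l 0 * ρ i ^ 2 ≤ 2 * d) → (∀ i, (d : ℝ) ≤ l K * ρ i ^ 2) →
  (∀ k i, k < K → l k * ρ i ^ 2 < d → l k ≤ l (k + 1) ∧
    l (k + 1) * ρ i ^ 2 ≤ l k * ρ i ^ 2 + √(l k * ρ i ^ 2) ∧ √(l k * ρ i ^ 2) ≤ x k) →
  (∀ i, 0 ≤ G i) →
  (∀ k i, k ≤ K → ENNReal.ofReal (G i) ≤ ∫⁻ y in cell p (b k) i,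
    ENNReal.ofReal (gau (l k) (p i) (ρ i) y)) →
  ENNReal.ofReal (∑ i, G i) ≤
    ENNReal.ofReal (108 + 8 * ((K : ℝ) + 1) + ∑ k ∈ Finset.range K, 64 * (x k + 1)) * vU p ρ

/-- UNC: the union inequality for distinct points, general exponents. -/
def T_UNC : Prop := ∀ (d : ℕ), 1 ≤ d → ∀ (ι : Type) [Fintype ι] (p q : ι → E d),
  Function.Injective p → Contr p q → ∀ (ρ : ι → ℝ) (l x : ℕ → ℝ) (K : ℕ), (∀ i, 0 < ρ i) →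
  (∀ k, 0 < l k) → (∀ k, 0 ≤ x k) →
  (∀ i, l 0 * ρ i ^ 2 ≤ 4) → (∀ i, l 0 * ρ i ^ 2 ≤ 2 * d) → (∀ i, (d : ℝ) ≤ l K * ρ i ^ 2) →
  (∀ k i, k < K → l k * ρ i ^ 2 < d → l k ≤ l (k + 1) ∧
    l (k + 1) * ρ i ^ 2 ≤ l k * ρ i ^ 2 + √(l k * ρ i ^ 2) ∧ √(l k * ρ i ^ 2) ≤ x k) →
  vU q ρ ≤
    ENNReal.ofReal (108 + 8 * ((K : ℝ) + 1) + ∑ k ∈ Finset.range K, 64 * (x k + 1)) * vU p ρ

/-- GRB: the grid for radii of ratio at most `R`. -/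
def T_GRB : Prop := ∀ D R : ℝ, 3 ≤ D → 1 ≤ R → ∃ (K : ℕ) (y x : ℕ → ℝ), (∀ k, 0 < y k) ∧
  (∀ k, 0 ≤ x k) ∧ y 0 ≤ 4 ∧ y 0 ≤ 2 * D ∧ D * R ^ 2 ≤ y K ∧
  (∀ k (α : ℝ), k < K → 0 < α → α ≤ 1 → y k * α < D → y k ≤ y (k + 1) ∧
    y (k + 1) * α ≤ y k * α + √(y k * α) ∧ √(y k * α) ≤ x k) ∧
  108 + 8 * ((K : ℝ) + 1) + ∑ k ∈ Finset.range K, 64 * (x k + 1) ≤ 140 * D + 340 * D * log R

/-- BLM: from radii of ratio at most `4 d` to arbitrary radii. -/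
def T_BLM : Prop := ∀ (d : ℕ), 1 ≤ d → ∀ (C : ℝ≥0∞),
  (∀ (ι : Type) [Fintype ι] (p q : ι → E d) (ρ : ι → ℝ), Function.Injective p → Contr p q →
    (∀ i, 0 < ρ i) → (∀ i j, ρ i ≤ 4 * (d : ℝ) * ρ j) → vU q ρ ≤ C * vU p ρ) →
  ∀ (ι : Type) [Fintype ι] (p q : ι → E d) (ρ : ι → ℝ), Function.Injective p → Contr p q →
    (∀ i, 0 < ρ i) → vU q ρ ≤ ENNReal.ofReal (2 * exp (1 / 2)) * C * vU p ρ

/-- UNL: union inequality, radii of ratio at most `R`. -/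
def T_UNL : Prop := ∀ (d : ℕ), 3 ≤ d → ∀ (R : ℝ), 1 ≤ R → ∀ (ι : Type) [Fintype ι]
  (p q : ι → E d) (ρ : ι → ℝ), Contr p q → (∀ i, 0 < ρ i) → (∀ i j, ρ i ≤ R * ρ j) →
  vU q ρ ≤ ENNReal.ofReal (140 * d * (1 + 9 * log (min R (4 * d)))) * vU p ρ

/-- WTR: from unions to weighted sums, radii of ratio at most `R`. -/
def T_WTR : Prop := ∀ (d : ℕ), 1 ≤ d → ∀ (C R : ℝ), 0 ≤ C →
  (∀ (ι : Type) [Fintype ι] (p q : ι → E d) (ρ : ι → ℝ), Contr p q → (∀ i, 0 < ρ i) →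
    (∀ i j, ρ i ≤ R * ρ j) → vU q ρ ≤ ENNReal.ofReal C * vU p ρ) →
  ∀ (n : ℕ) (p q : Fin n → E d) (ρ : Fin n → ℝ), Contr p q → (∀ i, 0 < ρ i) →
  (∀ i j, ρ i ≤ R * ρ j) → ∀ τ : Fin n → ℝ, Antitone τ → (∀ k, 0 ≤ τ k) →
  ∑ k : Fin n, τ k * (volume {x : E d | k.val + 1 ≤
      (Finset.univ.filter (fun i => dist x (q i) ≤ ρ i)).card}).toReal ≤
  8 / 5 * C * ∑ k : Fin n, τ k * (volume {x : E d | k.val + 1 ≤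
      (Finset.univ.filter (fun i => dist x (p i) ≤ ρ i)).card}).toReal

end Pool.Agent.H97.PK
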